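import Pool.Agent.Y762.FinJ
import Pool.Agent.H295R2.SI.Fin

/-!
Simple critical zeros and distinct zeros of the L-function of one primitive character, uniformly in the
conductor.
-/

open Complex Filter Topology Set MeasureTheory
open H370 (zset mult NN Nd Ns)

set_option autoImplicit false
set_option maxHeartbeats 4000000

namespace Pool.Agent.Q27.CS

open H385
open Pool.Agent.TH243.CYC (LP)
open Pool.Agent.Y762

theorem single_s (h ε : ℝ) (hh0 : 0 < h) (hh1 : h ≤ 1) (hε : 0 < ε) :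
    ∃ C : ℝ, 1 ≤ C ∧ ∀ (q : ℕ) [NeZero q] (ψ : DirichletCharacter ℂ q) (T : ℝ),
      ψ.IsPrimitive → C ≤ T → (q * T) ^ h ≤ T →
      ((2 - (cH h + ε)) * (NN (DirichletCharacter.LFunction ψ) T (2 * T) : ℝ) ≤
        (Ns (DirichletCharacter.LFunction ψ) T (2 * T) : ℝ)) ∧
      ((3 - (cH h + ε)) * (NN (DirichletCharacter.LFunction ψ) T (2 * T) : ℝ) ≤
        2 * (Nd (DirichletCharacter.LFunction ψ) T (2 * T) : ℝ)) ∧
      (1 - ε) * (T / (2 * Real.pi) * Real.log (q * T)) ≤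
        (NN (DirichletCharacter.LFunction ψ) T (2 * T) : ℝ) := by
  classical
  obtain ⟨Ca, hCa, hmsh⟩ := single_msh
  obtain ⟨s, e, hs0, hs1, he0, heε, hβ0, hβ1, hconst⟩ := const_choice h ε hh0 hh1 hε
  obtain ⟨hγ0, hγπ⟩ := gam_ok h hh0 hh1
  obtain ⟨C0, ζ, hC0, hζ, H⟩ := core_gen Ca (Real.sqrt 2 * h) (h * (1 - s)) e hCa hγ0 hγπ
    hβ0 hβ1 he0
  obtain ⟨C1, hC1, h1⟩ := hmsh h s ζ C0 hh0 hh1 hs0 hs1 hζ hC0
  refine ⟨C1, hC1, ?_⟩
  intro q _ ψ T hprim hT hqT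
  obtain ⟨p1, V, p3, p4, p5⟩ := h1 q ψ T hT hqT
  have hT1 : 1 ≤ T := hC1.trans hT
  have hq1 : (1 : ℝ) ≤ q := by exact_mod_cast (NeZero.one_le : 1 ≤ q)
  have hlog : 0 ≤ Real.log (q * T) := Real.log_nonneg (one_le_mul_of_one_le_of_one_le hq1 hT1)
  have hcond : ∑ χ ∈ ({ψ} : Finset (DirichletCharacter ℂ q)),
      (Real.log q - Real.log χ.conductor) ≤
      ζ * Real.log (q * T) * ((({ψ} : Finset (DirichletCharacter ℂ q)).card : ℕ) : ℝ) := by
    have hc : ψ.conductor = q := hprim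
    rw [Finset.sum_singleton, hc, sub_self]
    positivity
  obtain ⟨r1, r2, r3⟩ := H q T V {ψ} p1 (by simp) p3 p4 hcond p5
  have hc := Pool.Agent.TH243.CYC.counts ψ T (2 * T) (by linarith)
  rw [Finset.sum_singleton, Finset.sum_singleton] at r1 r2
  rw [Finset.sum_singleton, Finset.card_singleton, Nat.cast_one, mul_one] at r3
  rw [hc.1, hc.2.1, hc.2.2]
  have hN0 : (0:ℝ) ≤ (NN (LP ψ) T (2 * T) : ℝ) := Nat.cast_nonneg _
  have h2 := mul_le_mul_of_nonneg_right hconst hN0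
  refine ⟨by linarith, by linarith, ?_⟩
  refine le_trans ?_ r3
  refine mul_le_mul_of_nonneg_right (by linarith) (by positivity)

/-- `c(h) ≤ 1/h + h/3` -/
theorem cH_le (h : ℝ) (h0 : 0 < h) (h1 : h ≤ 1) : cH h ≤ 1 / h + h / 3 := H295SI.cc_le h h0 h1

/-- distinct zeros: the proportion `1 / c(h)` -/
theorem single_d (h ε : ℝ) (hh0 : 0 < h) (hh1 : h ≤ 1) (hε : 0 < ε) :
    ∃ C : ℝ, 1 ≤ C ∧ ∀ (q : ℕ) [NeZero q] (ψ : DirichletCharacter ℂ q) (T : ℝ),
      ψ.IsPrimitive → C ≤ T → (q * T) ^ h ≤ T →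
      (3 * h / (3 + h ^ 2) - ε) * (NN (DirichletCharacter.LFunction ψ) T (2 * T) : ℝ) ≤
        (Nd (DirichletCharacter.LFunction ψ) T (2 * T) : ℝ) := by
  set u : ℝ := 1 / h + h / 3 with hu
  have hu1 : 1 ≤ u := by
    rw [hu]
    have : 1 ≤ 1 / h := by rw [le_div_iff₀ hh0]; linarith
    have : 0 ≤ h / 3 := by positivity
    linarith
  have hinv : 3 * h / (3 + h ^ 2) = 1 / u := by
    rw [hu]; field_simp
  set j : ℕ := ⌊u⌋₊ with hj
  have hj1 : 1 ≤ j := Nat.le_floor (by simpa using hu1)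
  have hju : (j : ℝ) ≤ u := Nat.floor_le (by linarith)
  have huj : u < j + 1 := Nat.lt_floor_add_one u
  have hjr : (1:ℝ) ≤ j := by exact_mod_cast hj1
  have hJ : (0:ℝ) < j * (j + 1) := by positivity
  obtain ⟨C, hC, H⟩ := single_j j hj1 h (ε * (j * (j + 1))) hh0 hh1 (by positivity)
  refine ⟨C, hC, ?_⟩
  intro q _ ψ T hprim hT hqT
  obtain ⟨r1, -⟩ := H q ψ T hprim hT hqT
  have hN0 : (0:ℝ) ≤ (NN (DirichletCharacter.LFunction ψ) T (2 * T) : ℝ) := Nat.cast_nonneg _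
  have hcu : cH h ≤ u := cH_le h hh0 hh1
  have key : (1 / u) * (j * (j + 1)) ≤ 2 * j + 1 - u := by
    rw [div_mul_eq_mul_div, one_mul, div_le_iff₀ (by linarith)]
    nlinarith [mul_nonneg (sub_nonneg.mpr hju) (sub_nonneg.mpr huj.le)]
  rw [hinv]
  have h3 : (1 / u - ε) * (j * (j + 1)) ≤ 2 * j + 1 - (cH h + ε * (j * (j + 1))) := by
    have : (1 / u - ε) * (j * (j + 1)) = (1 / u) * (j * (j + 1)) - ε * (j * (j + 1)) := by ring
    rw [this]
    linarith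
  have h4 := mul_le_mul_of_nonneg_right h3 hN0
  have h5 : (j * (j + 1)) * ((1 / u - ε) * (NN (DirichletCharacter.LFunction ψ) T (2 * T) : ℝ)) ≤
      (j * (j + 1)) * (Nd (DirichletCharacter.LFunction ψ) T (2 * T) : ℝ) := by
    linarith
  exact le_of_mul_le_mul_left h5 hJ

/-- the condition on the conductor -/
theorem pow_cond {q T h : ℝ} (hq : 1 ≤ q) (hT : 1 ≤ T) (h0 : 0 < h) (h1 : h < 1)
    (hqT : q ^ (h / (1 - h)) ≤ T) : (q * T) ^ h ≤ T := by
  have h1' : 0 < 1 - h := by linarith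
  have hq0 : 0 < q := by linarith
  have hT0 : 0 < T := by linarith
  have e1 : q ^ h ≤ T ^ (1 - h) := by
    have h2 := Real.rpow_le_rpow (by positivity) hqT h1'.le
    rwa [← Real.rpow_mul hq0.le, div_mul_cancel₀ _ h1'.ne'] at h2
  rw [Real.mul_rpow hq0.le hT0.le]
  calc q ^ h * T ^ h ≤ T ^ (1 - h) * T ^ h :=
        mul_le_mul_of_nonneg_right e1 (Real.rpow_nonneg hT0.le _)
    _ = T := by rw [← Real.rpow_add hT0]; simp

/-- more than 67.25 per cent, if `T` is larger than a fixed power of `q` -/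
theorem single_num : ∃ A C : ℝ, 1 ≤ A ∧ 1 ≤ C ∧ ∀ (q : ℕ) [NeZero q] (ψ : DirichletCharacter ℂ q) (T : ℝ),
      ψ.IsPrimitive → C ≤ T → (q : ℝ) ^ A ≤ T →
      (0.6725 * (NN (DirichletCharacter.LFunction ψ) T (2 * T) : ℝ) ≤
        (Ns (DirichletCharacter.LFunction ψ) T (2 * T) : ℝ)) ∧
      (0.83625 * (NN (DirichletCharacter.LFunction ψ) T (2 * T) : ℝ) ≤
        (Nd (DirichletCharacter.LFunction ψ) T (2 * T) : ℝ)) := by
  classical
  have hd2 := Rw_const_d2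
  have hR0 : 0 ≤ Rw 1.414 0 := Rw_nonneg 1.414 (by norm_num) (by linarith [Real.pi_gt_three]) 0
  have hJ0 := I1_nonneg 1.414 (by norm_num) (by linarith [Real.pi_gt_three])
  set R0 : ℝ := Rw 1.414 0 with hR0d
  set J : ℝ := ∫ α in (0 : ℝ)..1, α * Rw 1.414 α with hJd
  obtain ⟨β, hβ0, hβ1, hβc⟩ : ∃ β : ℝ, 1 / 2 < β ∧ β < 1 ∧ R0 / β + 2 * β * J < 1.3275 := by
    have hcont : ContinuousAt (fun a : ℝ => R0 / a + 2 * a * J) 1 := by
      have h1 : ContinuousAt (fun a : ℝ => R0 / a) 1 :=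
        ContinuousAt.div continuousAt_const (by fun_prop) (by norm_num)
      exact h1.add (by fun_prop)
    have h0 : (fun a : ℝ => R0 / a + 2 * a * J) 1 < 1.3275 := by
      simp only [div_one, mul_one]
      linarith
    have h1 := hcont.eventually (gt_mem_nhds h0)
    have h2 : ∀ᶠ a : ℝ in 𝓝[<] (1:ℝ), 1 / 2 < a ∧ a < 1 := by
      filter_upwards [Ioo_mem_nhdsLT (show (1 / 2 : ℝ) < 1 by norm_num)] with a ha
      exact ⟨ha.1, ha.2⟩
    obtain ⟨a, h4, h5, h6⟩ := ((h1.filter_mono nhdsWithin_le_nhds).and h2).exists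
    exact ⟨a, h5, h6, h4⟩
  set h : ℝ := (1 + β) / 2 with hh
  have h0 : 0 < h := by rw [hh]; linarith
  have h1 : h < 1 := by rw [hh]; linarith
  have hβh : β < h := by rw [hh]; linarith
  set s : ℝ := 1 - β / h with hs
  have hβh' : β / h < 1 := by rw [div_lt_one h0]; exact hβh
  have hβh2 : 1 / 2 ≤ β / h := by rw [le_div_iff₀ h0]; linarith
  have hs0 : 0 < s := by rw [hs]; linarith
  have hs1 : s ≤ 1 / 2 := by rw [hs]; linarith
  have hhs : h * (1 - s) = β := by rw [hs]; field_simp; ring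
  obtain ⟨Ca, hCa, hmsh⟩ := single_msh
  obtain ⟨C0, ζ, hC0, hζ, H⟩ := core_gen Ca 1.414 β (1.3275 - (R0 / β + 2 * β * J)) hCa (by norm_num)
    (by linarith [Real.pi_gt_three]) (by linarith) hβ1 (by linarith)
  obtain ⟨C1, hC1, h2⟩ := hmsh h s ζ C0 h0 h1.le hs0 hs1 hζ hC0
  rw [hhs] at h2
  refine ⟨max 1 (h / (1 - h)), C1, le_max_left _ _, hC1, ?_⟩
  intro q _ ψ T hprim hT hqA
  have hT1 : 1 ≤ T := hC1.trans hT
  have hq1 : (1 : ℝ) ≤ q := by exact_mod_cast (NeZero.one_le : 1 ≤ q)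
  have hqT : (q * T) ^ h ≤ T :=
    pow_cond hq1 hT1 h0 h1 ((Real.rpow_le_rpow_of_exponent_le hq1 (le_max_right _ _)).trans hqA)
  obtain ⟨p1, V, p3, p4, p5⟩ := h2 q ψ T hT hqT
  have hlog : 0 ≤ Real.log (q * T) := Real.log_nonneg (one_le_mul_of_one_le_of_one_le hq1 hT1)
  have hcond : ∑ χ ∈ ({ψ} : Finset (DirichletCharacter ℂ q)),
      (Real.log q - Real.log χ.conductor) ≤
      ζ * Real.log (q * T) * ((({ψ} : Finset (DirichletCharacter ℂ q)).card : ℕ) : ℝ) := by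
    have hc : ψ.conductor = q := hprim
    rw [Finset.sum_singleton, hc, sub_self]
    positivity
  obtain ⟨r1, r2, -⟩ := H q T V {ψ} p1 (by simp) p3 p4 hcond p5
  have hc := Pool.Agent.TH243.CYC.counts ψ T (2 * T) (by linarith)
  rw [Finset.sum_singleton, Finset.sum_singleton] at r1 r2
  rw [hc.1, hc.2.1, hc.2.2]
  rw [← hR0d, ← hJd] at r1 r2
  have hN0 : (0:ℝ) ≤ (NN (LP ψ) T (2 * T) : ℝ) := Nat.cast_nonneg _
  have e1 : R0 / β + 2 * β * J + (1.3275 - (R0 / β + 2 * β * J)) = 1.3275 := by ring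
  rw [e1] at r1 r2
  constructor <;> linarith

end Pool.Agent.Q27.CS
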