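import Pool.Agent.Q27.ZS1
import Pool.Agent.W186.HZ.Fin
import Pool.Agent.W186.LH.Fac

/-!
# Zeros of zeta and zeros of the shifted sums `XX (u + a) + w XX (u - a)`
-/

set_option autoImplicit false

namespace Pool.Agent.Q27.ZS

open Complex Filter Topology Metric
open scoped ComplexConjugate
open Pool.Agent.H24R2.JP (XX HH Om)
open Pool.Agent.W186.DX (F F_zero AF F_fin F_half XX_conj)
open Pool.Agent.W186.HZ (CT ct_half ct_of_AF prof profL Om_large HH_move af_iff Asy)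

/-- the shifted sum -/
noncomputable def sh (a : ℝ) (w u : ℂ) : ℂ := XX (u + a) + w * XX (u - a)

lemma XX_d : Differentiable ℂ XX := Pool.Agent.H24R2.JP.B1h.XX_diff

lemma sh_diff (a : ℝ) (w : ℂ) : Differentiable ℂ (sh a w) := by
  unfold sh
  exact (XX_d.comp (differentiable_id.add_const _)).add
    ((XX_d.comp (differentiable_id.sub_const _)).const_mul _)

lemma sh_conj (a : ℝ) (w u : ℂ) : sh a w (conj u) = conj (sh a (conj w) u) := by
  unfold sh
  rw [map_add, map_mul, Complex.conj_conj, ← XX_conj, ← XX_conj]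
  simp

lemma norm_sym (T x : ℝ) : ‖XX (I * T + ((-x : ℝ) : ℂ))‖ = ‖XX (I * T + (x : ℂ))‖ := by
  have h := Pool.Agent.H24R2.DZ.XBAux.xsymm (I * T + (x : ℂ))
  have e : -(conj (I * T + (x : ℂ))) = I * T + ((-x : ℝ) : ℂ) := by
    simp
    ring
  rw [e] at h
  rw [h, Complex.norm_conj]

/-- Upper bound at real shifts -/
lemma prof_abs {y : ℝ} (hy0 : 0 ≤ y) (hy1 : y ≤ 1 / 2) (h : CT y) (ε R : ℝ) (hε : 0 < ε) (hR : 1 ≤ R) :
    ∃ T0 : ℝ, 400 ≤ T0 ∧ ∀ T : ℝ, T0 ≤ T → ∀ x : ℝ, |x| ≤ R →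
      ‖XX (I * T + (x : ℂ))‖ ≤ Real.exp (Om T * (max |x| y + ε)) * ‖HH (I * T)‖ := by
  obtain ⟨T0, hT0, hp⟩ := prof hy0 hy1 h ε R hε hR
  refine ⟨T0, hT0, fun T hT x hx => ?_⟩
  rcases le_total 0 x with h0 | h0
  · rw [abs_of_nonneg h0] at hx ⊢
    have := hp T hT (x : ℂ) (by simpa using h0) (by simpa using hx) (by simp)
    simpa using this
  · rw [abs_of_nonpos h0] at hx ⊢
    have := hp T hT ((-x : ℝ) : ℂ) (by simpa using h0) (by simpa using hx) (by simp)
    rw [norm_sym] at this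
    simpa using this

lemma eq_pt (u : ℂ) : u = I * (u.im : ℝ) + (u.re : ℝ) := by
  apply Complex.ext <;> simp

/-- **Comparison.** -/
theorem compare {a : ℝ} (ha : 0 < a) (ha1 : a < 1 / 2) (h : CT a) {δ X : ℝ} (hδ : 0 < δ) :
    ∃ c T0 : ℝ, 0 < c ∧ 400 ≤ T0 ∧ ∀ u : ℂ, δ ≤ u.re → u.re ≤ X → T0 ≤ u.im →
      XX (u + a) ≠ 0 ∧ ‖XX (u - a)‖ ≤ Real.exp (-(c * Om u.im)) * ‖XX (u + a)‖ := by
  obtain ⟨ε, hεd⟩ : ∃ ε : ℝ, ε = min δ a / 4 := ⟨_, rfl⟩
  have hm : 0 < min δ a := lt_min hδ ha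
  have hε : 0 < ε := by rw [hεd]; positivity
  have h1 : 4 * ε ≤ δ := by
    have := min_le_left δ a
    rw [hεd]; linarith
  have h2 : 4 * ε ≤ a := by
    have := min_le_right δ a
    rw [hεd]; linarith
  obtain ⟨T1, hT1, hL⟩ := profL ha.le h ε (max X 1 + 1) hε (by have := le_max_right X 1; linarith)
  obtain ⟨T2, hT2, hU⟩ := prof_abs ha.le ha1.le h ε (max X 1 + 1) hε
    (by have := le_max_right X 1; linarith)
  refine ⟨2 * ε, max T1 T2, by positivity, hT1.trans (le_max_left _ _), ?_⟩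
  intro u hu1 hu2 hu3
  have hX := le_max_left X 1
  have hX1 := le_max_right X 1
  have hT : T1 ≤ u.im := (le_max_left _ _).trans hu3
  have hT' : T2 ≤ u.im := (le_max_right _ _).trans hu3
  have hOm : 0 ≤ Om u.im := by
    unfold Om
    have : 0 ≤ Real.log u.im := Real.log_nonneg (by linarith)
    linarith
  have e1 : u + (a : ℂ) = I * (u.im : ℝ) + ((u.re + a : ℝ) : ℂ) := by
    apply Complex.ext <;> simp
  have e2 : u - (a : ℂ) = I * (u.im : ℝ) + ((u.re - a : ℝ) : ℂ) := by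
    apply Complex.ext <;> simp
  obtain ⟨b1, -, b2, -⟩ := hL u.im hT ((u.re + a : ℝ) : ℂ) (by rw [ofReal_re]; linarith)
    (by rw [ofReal_re]; linarith) (by simp)
  rw [← e1] at b1 b2
  rw [ofReal_re] at b2
  refine ⟨b1, ?_⟩
  have b3 := hU u.im hT' (u.re - a) (by
    rw [abs_le]
    constructor <;> linarith)
  rw [← e2] at b3
  refine b3.trans ?_
  have h3 : max |u.re - a| a + ε ≤ -(2 * ε) + (u.re + a - ε) := by
    have : max |u.re - a| a ≤ u.re + a - 4 * ε := by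
      apply max_le
      · rw [abs_le]
        constructor <;> linarith
      · linarith
    linarith
  calc Real.exp (Om u.im * (max |u.re - a| a + ε)) * ‖HH (I * u.im)‖
      ≤ Real.exp (Om u.im * (-(2 * ε) + (u.re + a - ε))) * ‖HH (I * u.im)‖ := by
        apply mul_le_mul_of_nonneg_right _ (norm_nonneg _)
        exact Real.exp_le_exp.2 (mul_le_mul_of_nonneg_left h3 hOm)
    _ = Real.exp (-(2 * ε * Om u.im)) * (Real.exp (Om u.im * (u.re + a - ε)) * ‖HH (I * u.im)‖) := by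
        rw [← mul_assoc, ← Real.exp_add]
        congr 2
        ring
    _ ≤ _ := mul_le_mul_of_nonneg_left b2 (Real.exp_pos _).le

/-- all zeros of all shifted sums are bounded -/
def BZ (a : ℝ) : Prop := ∀ δ X : ℝ, 0 < δ → ∃ H : ℝ, ∀ u w : ℂ, δ ≤ u.re → u.re ≤ X → ‖w‖ = 1 →
  sh a w u = 0 → |u.im| ≤ H

/-- finitely many zeros -/
def FZ (a : ℝ) (w : ℂ) : Prop := ∀ δ X : ℝ, 0 < δ → {u : ℂ | δ ≤ u.re ∧ u.re ≤ X ∧ sh a w u = 0}.Finite

lemma Om_pos {T : ℝ} (hT : 400 ≤ T) : 0 < Om T := by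
  unfold Om
  have : 0 < Real.log T := Real.log_pos (by linarith)
  linarith

theorem bz_of {a : ℝ} (ha : 0 < a) (ha1 : a < 1 / 2) (h : CT a) : BZ a := by
  intro δ X hδ
  obtain ⟨c, T0, hc, hT0, hcmp⟩ := compare ha ha1 h (δ := δ) (X := X) hδ
  have key : ∀ u w : ℂ, δ ≤ u.re → u.re ≤ X → ‖w‖ = 1 → T0 ≤ u.im → sh a w u ≠ 0 := by
    intro u w h1 h2 hw h3 h0
    obtain ⟨b1, b2⟩ := hcmp u h1 h2 h3
    unfold sh at h0
    have h4 : ‖XX (u + a)‖ = ‖XX (u - a)‖ := by
      rw [eq_neg_of_add_eq_zero_left h0, norm_neg, norm_mul, hw, one_mul]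
    rw [← h4] at b2
    have h5 : 0 < ‖XX (u + a)‖ := norm_pos_iff.2 b1
    have h6 : Real.exp (-(c * Om u.im)) < 1 := by
      rw [Real.exp_lt_one_iff]
      have := Om_pos (hT0.trans h3)
      have : 0 < c * Om u.im := by positivity
      linarith
    nlinarith
  refine ⟨T0, fun u w h1 h2 hw h0 => ?_⟩
  by_contra hcon
  push Not at hcon
  rcases le_total 0 u.im with h3 | h3
  · rw [abs_of_nonneg h3] at hcon
    exact key u w h1 h2 hw hcon.le h0
  · rw [abs_of_nonpos h3] at hcon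
    refine key (conj u) (conj w) (by simpa using h1) (by simpa using h2) (by rwa [Complex.norm_conj])
      (by simpa using hcon.le) ?_
    rw [sh_conj, Complex.conj_conj, h0, map_zero]

theorem fz_of {a : ℝ} (h : BZ a) {w : ℂ} (hw : ‖w‖ = 1) : FZ a w := by
  intro δ X hδ
  obtain ⟨H, hH⟩ := h δ X hδ
  have hne : ∃ u, sh a w u ≠ 0 := by
    by_contra hcon
    push Not at hcon
    obtain ⟨H', hH'⟩ := h δ δ hδ
    have := hH' (⟨δ, |H'| + 1⟩ : ℂ) w le_rfl le_rfl hw (hcon _)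
    have h2 : |(|H'| + 1)| = |H'| + 1 := abs_of_nonneg (by positivity)
    simp only [h2] at this
    linarith [le_abs_self H']
  have hK : IsCompact (Set.Icc δ X ×ℂ Set.Icc (-H) H) := IsCompact.reProdIm isCompact_Icc isCompact_Icc
  refine (Pool.Agent.W186.LH.zfin (sh_diff a w) hne hK).subset ?_
  rintro u ⟨h1, h2, h3⟩
  refine ⟨?_, h3⟩
  rw [mem_reProdIm]
  exact ⟨⟨h1, h2⟩, abs_le.1 (hH u w h1 h2 hw h3)⟩

/-- crude bound -/
lemma crude : ∃ T0 : ℝ, 400 ≤ T0 ∧ ∀ (T : ℝ) (u : ℂ), T0 ≤ T → |u.re| ≤ 5 → |u.im| ≤ 2 →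
    ‖XX (I * T + u)‖ ≤ Real.exp (14 * Om T) * ‖HH (I * T)‖ := by
  obtain ⟨T1, hT1, hU⟩ := prof_abs (y := 1 / 2) (by norm_num) le_rfl ct_half 1 5 one_pos (by norm_num)
  obtain ⟨T2, hT2, hM⟩ := HH_move
  obtain ⟨T3, hT3, hO⟩ := Om_large 1
  refine ⟨max (max T1 T2) T3 + 2, by have := le_max_right (max T1 T2) T3; linarith, ?_⟩
  intro T u hT h1 h2
  have g0 := le_max_left (max T1 T2) T3
  have g1 : T1 ≤ T - 2 := by have := le_max_left T1 T2; linarith
  have g2 : T2 ≤ T - 2 := by have := le_max_right T1 T2; linarith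
  have g3 : T3 ≤ T := by have := le_max_right (max T1 T2) T3; linarith
  have hOm := hO T g3
  have h2' := abs_le.1 h2
  have e : I * (T : ℂ) + u = I * ((T + u.im : ℝ) : ℂ) + (u.re : ℂ) := by
    apply Complex.ext <;> simp
  rw [e]
  have b1 := hU (T + u.im) (by linarith) u.re h1
  have b2 := hM T u.im (by linarith) (by linarith)
  have hlog : Om (T + u.im) ≤ Om T + 1 := by
    unfold Om
    have h5 : Real.log (T + u.im) ≤ Real.log (T * Real.exp 2) := by
      apply Real.log_le_log (by linarith)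
      have h6 := Real.add_one_le_exp (2 : ℝ)
      nlinarith
    rw [Real.log_mul (by linarith) (Real.exp_pos _).ne', Real.log_exp] at h5
    linarith
  have h7 : 0 ≤ Om (T + u.im) := by
    unfold Om
    have : 0 ≤ Real.log (T + u.im) := Real.log_nonneg (by linarith)
    linarith
  have h8 : max |u.re| (1 / 2) + 1 ≤ 6 := by
    have : max |u.re| (1 / 2) ≤ 5 := max_le h1 (by norm_num)
    linarith
  have h9 : Om (T + u.im) * (max |u.re| (1 / 2) + 1) ≤ 12 * Om T := by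
    calc Om (T + u.im) * (max |u.re| (1 / 2) + 1) ≤ Om (T + u.im) * 6 := mul_le_mul_of_nonneg_left h8 h7
      _ ≤ _ := by linarith
  calc ‖XX (I * ((T + u.im : ℝ) : ℂ) + (u.re : ℂ))‖
      ≤ Real.exp (12 * Om T) * ‖HH (I * ((T + u.im : ℝ) : ℂ))‖ :=
        b1.trans (mul_le_mul_of_nonneg_right (Real.exp_le_exp.2 h9) (norm_nonneg _))
    _ ≤ Real.exp (12 * Om T) * (Real.exp |u.im| * ‖HH (I * T)‖) :=
        mul_le_mul_of_nonneg_left b2 (Real.exp_pos _).le
    _ = Real.exp (12 * Om T + |u.im|) * ‖HH (I * T)‖ := by rw [Real.exp_add, mul_assoc]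
    _ ≤ _ := by
        apply mul_le_mul_of_nonneg_right _ (norm_nonneg _)
        apply Real.exp_le_exp.2
        linarith

/-- comparison in the half-plane of convergence -/
lemma right_cmp {a : ℝ} (ha : 0 < a) (ha1 : a < 1 / 2) : ∃ T0 : ℝ, 400 ≤ T0 ∧ ∀ (T : ℝ) (u : ℂ), T0 ≤ T →
    3 / 2 ≤ u.re → u.re ≤ 5 / 2 → |u.im| ≤ 1 / 2 →
    ‖XX (I * T + u - a)‖ ≤ Real.exp (-(3 / 2 * a * Om T)) * ‖XX (I * T + u + a)‖ ∧
    ‖HH (I * T)‖ ≤ ‖XX (I * T + u + a)‖ ∧ 0 < ‖HH (I * T)‖ := by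
  obtain ⟨T1, hT1, hL⟩ := profL (y := 1 / 2) (by norm_num) ct_half (a / 4) 4 (by positivity) (by norm_num)
  refine ⟨T1, hT1, fun T u hT h1 h2 h3 => ?_⟩
  have hOm := Om_pos (hT1.trans hT)
  obtain ⟨b1, -, b2, -⟩ := hL T hT (u + a) (by simp; linarith) (by simp; linarith) (by simp; linarith)
  obtain ⟨-, -, -, b3⟩ := hL T hT (u - a) (by simp; linarith) (by simp; linarith) (by simp; linarith)
  have hr1 : (u + (a : ℂ)).re = u.re + a := by simp
  have hr2 : (u - (a : ℂ)).re = u.re - a := by simp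
  rw [hr1] at b2
  rw [hr2] at b3
  have e1 : I * (T : ℂ) + u + a = I * T + (u + a) := by ring
  have e2 : I * (T : ℂ) + u - a = I * T + (u - a) := by ring
  rw [e1, e2]
  have hHH : 0 < ‖HH (I * T)‖ := by
    by_contra hcon
    have h0 : ‖HH (I * (T : ℂ))‖ = 0 := le_antisymm (not_lt.1 hcon) (norm_nonneg _)
    obtain ⟨c1, -, -, c2⟩ := hL T hT (u + a) (by simp; linarith) (by simp; linarith) (by simp; linarith)
    rw [h0, mul_zero] at c2
    exact c1 (norm_eq_zero.1 (le_antisymm c2 (norm_nonneg _)))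
  refine ⟨?_, ?_, hHH⟩
  · calc ‖XX (I * T + (u - a))‖ ≤ Real.exp (Om T * (u.re - a + a / 4)) * ‖HH (I * T)‖ := b3
      _ = Real.exp (-(3 / 2 * a * Om T)) * (Real.exp (Om T * (u.re + a - a / 4)) * ‖HH (I * T)‖) := by
          rw [← mul_assoc, ← Real.exp_add]
          congr 2
          ring
      _ ≤ _ := mul_le_mul_of_nonneg_left b2 (Real.exp_pos _).le
  · refine le_trans ?_ b2
    have h5 : 1 ≤ Real.exp (Om T * (u.re + a - a / 4)) := by
      apply Real.one_le_exp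
      have : 0 ≤ u.re + a - a / 4 := by linarith
      positivity
    nlinarith

/-- **The converse.** -/
theorem af_of {a : ℝ} (ha : 0 < a) (ha1 : a < 1 / 2) {w₁ w₂ : ℂ} (hw₁ : ‖w₁‖ = 1) (hw₂ : ‖w₂‖ = 1)
    (hne : w₁ ≠ w₂) (h1 : FZ a w₁) (h2 : FZ a w₂) : AF 0 a := by
  intro ε' hε'
  obtain ⟨ε, hεd⟩ : ∃ ε : ℝ, ε = min ε' (1 / 4) := ⟨_, rfl⟩
  have hε : 0 < ε := by rw [hεd]; exact lt_min hε' (by norm_num)
  have hεε : ε ≤ ε' := by rw [hεd]; exact min_le_left _ _
  have hε4 : ε ≤ 1 / 4 := by rw [hεd]; exact min_le_right _ _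
  have hd : 0 < ‖w₁ - w₂‖ := norm_pos_iff.2 (sub_ne_zero.2 hne)
  have hd2 : ‖w₁ - w₂‖ ≤ 2 := (norm_sub_le _ _).trans (by rw [hw₁, hw₂]; norm_num)
  obtain ⟨L0, hL01, hq⟩ := quo (K0 := 15) (c0 := a) (ρ := 2 - ε) (R := 2 - ε / 2)
    (ε := ‖w₁ - w₂‖ / 2) (by linarith) (by linarith) (by norm_num) ha (by positivity)
  have hbd : ∀ w : ℂ, FZ a w → ∃ H : ℝ, ∀ u : ℂ, ε / 2 ≤ u.re → u.re ≤ 4 → sh a w u = 0 → u.im ≤ H := by
    intro w hw
    obtain ⟨H, hH⟩ := ((hw (ε / 2) 4 (by positivity)).image Complex.im).bddAbove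
    exact ⟨H, fun u c1 c2 c3 => hH ⟨u, ⟨c1, c2, c3⟩, rfl⟩⟩
  obtain ⟨H1, hH1⟩ := hbd w₁ h1
  obtain ⟨H2, hH2⟩ := hbd w₂ h2
  obtain ⟨T1, hT1, hcr⟩ := crude
  obtain ⟨T2, hT2, hrc⟩ := right_cmp ha ha1
  obtain ⟨T3, hT3, hO⟩ := Om_large (max L0 (8 / a))
  obtain ⟨T0, hT0⟩ : ∃ T0 : ℝ, T0 = max (max T1 T2) (max T3 (max H1 H2 + 3)) := ⟨_, rfl⟩
  have key : ∀ z : ℂ, a + ε < z.re → T0 ≤ z.im → XX z ≠ 0 := by
    intro z hz1 hz2 hz0
    have hzh : z.re ≤ 1 / 2 := by
      have := F_half (n := 0) (z := z) (by rw [F_zero]; exact hz0)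
      exact (le_abs_self _).trans this
    obtain ⟨T, hT⟩ : ∃ T : ℝ, T = z.im := ⟨_, rfl⟩
    rw [← hT] at hz2
    have t1 : T1 ≤ T := ((le_max_left _ _).trans (le_max_left _ _)).trans (hT0.ge.trans hz2)
    have t2 : T2 ≤ T := ((le_max_right _ _).trans (le_max_left _ _)).trans (hT0.ge.trans hz2)
    have t3 : T3 ≤ T := ((le_max_left _ _).trans (le_max_right _ _)).trans (hT0.ge.trans hz2)
    have t4 : max H1 H2 + 3 ≤ T := ((le_max_right _ _).trans (le_max_right _ _)).trans (hT0.ge.trans hz2)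
    have tH1 : H1 + 3 ≤ T := by have := le_max_left H1 H2; linarith
    have tH2 : H2 + 3 ≤ T := by have := le_max_right H1 H2; linarith
    have hOm := hO T t3
    have hOL : L0 ≤ Om T := (le_max_left _ _).trans hOm
    have hOa : 8 / a ≤ Om T := (le_max_right _ _).trans hOm
    have hOa' : 8 ≤ a * Om T := by
      rw [div_le_iff₀ ha] at hOa
      linarith
    have hOm1 : 1 ≤ Om T := hL01.trans hOL
    obtain ⟨G, hG⟩ : ∃ G : ℝ, G = ‖HH (I * T)‖ := ⟨_, rfl⟩
    have hG0 : 0 < G := by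
      rw [hG]
      exact (hrc T 2 t2 (by simp; norm_num) (by simp; norm_num) (by simp)).2.2
    have him : ∀ u : ℂ, (I * (T : ℂ) + u).im = T + u.im := fun u => by simp
    have hre : ∀ u : ℂ, (I * (T : ℂ) + u).re = u.re := fun u => by simp
    have e2e : (2 : ℝ) ≤ Real.exp 1 := by
      have := Real.add_one_le_exp (1 : ℝ)
      linarith
    have hball : ∀ (r : ℝ) (u : ℂ), u ∈ ball (2 : ℂ) r → |u.re - 2| < r ∧ |u.im| < r := by
      intro r u hu
      rw [mem_ball_iff_norm] at hu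
      constructor
      · have := Complex.abs_re_le_norm (u - 2)
        simp at this
        linarith
      · have := Complex.abs_im_le_norm (u - 2)
        simp at this
        linarith
    have hyp : ∀ w : ℂ, ‖w‖ = 1 → (∀ u : ℂ, ε / 2 ≤ u.re → u.re ≤ 4 → sh a w u = 0 → u.im ≤ T - 3) →
        (∀ u ∈ ball (2 : ℂ) (2 - ε / 2), DifferentiableAt ℂ (fun v => sh a w (I * T + v)) u ∧
          sh a w (I * T + u) ≠ 0 ∧ ‖sh a w (I * T + u)‖ ≤ G * Real.exp (15 * Om T)) ∧
        G * Real.exp (-(15 * Om T)) ≤ ‖sh a w (I * T + 2)‖ := by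
      intro w hw hz
      refine ⟨fun u hu => ⟨?_, ?_, ?_⟩, ?_⟩
      · exact ((sh_diff a w).comp (differentiable_id.const_add _)).differentiableAt
      · intro h0
        obtain ⟨c1, c2⟩ := hball _ u hu
        rw [abs_lt] at c1 c2
        have := hz (I * T + u) (by rw [hre]; linarith) (by rw [hre]; linarith) h0
        rw [him] at this
        linarith
      · obtain ⟨c1, c2⟩ := hball _ u hu
        rw [abs_lt] at c1 c2
        have d1 := hcr T (u + a) t1 (by
          rw [add_re, ofReal_re, abs_le]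
          constructor <;> linarith) (by
          rw [add_im, ofReal_im, abs_le]
          constructor <;> linarith)
        have d2 := hcr T (u - a) t1 (by
          rw [sub_re, ofReal_re, abs_le]
          constructor <;> linarith) (by
          rw [sub_im, ofReal_im, abs_le]
          constructor <;> linarith)
        unfold sh
        have e1 : I * (T : ℂ) + u + a = I * T + (u + a) := by ring
        have e2 : I * (T : ℂ) + u - a = I * T + (u - a) := by ring
        rw [e1, e2]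
        refine (norm_add_le _ _).trans ?_
        rw [norm_mul, hw, one_mul]
        rw [← hG] at d1 d2
        have h5 : 2 * Real.exp (14 * Om T) ≤ Real.exp (15 * Om T) := by
          have h6 : Real.exp (15 * Om T) = Real.exp (Om T) * Real.exp (14 * Om T) := by
            rw [← Real.exp_add]; congr 1; ring
          rw [h6]
          apply mul_le_mul_of_nonneg_right _ (Real.exp_pos _).le
          exact e2e.trans (Real.exp_le_exp.2 hOm1)
        nlinarith
      · obtain ⟨d1, d2, -⟩ := hrc T 2 t2 (by simp; norm_num) (by simp; norm_num) (by simp)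
        unfold sh
        have h5 : ‖XX (I * T + 2 + a)‖ - ‖w * XX (I * T + 2 - a)‖ ≤
            ‖XX (I * T + 2 + a) + w * XX (I * T + 2 - a)‖ := by
          have := norm_sub_norm_le (XX (I * T + 2 + a)) (-(w * XX (I * T + 2 - a)))
          rwa [norm_neg, sub_neg_eq_add] at this
        rw [norm_mul, hw, one_mul] at h5
        have h6 : Real.exp (-(3 / 2 * a * Om T)) ≤ 1 / 2 := by
          rw [Real.exp_neg, ← one_div]
          apply one_div_le_one_div_of_le (by norm_num)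
          exact e2e.trans (Real.exp_le_exp.2 (by nlinarith))
        have h7 : Real.exp (-(15 * Om T)) ≤ 1 / 2 := by
          rw [Real.exp_neg, ← one_div]
          apply one_div_le_one_div_of_le (by norm_num)
          exact e2e.trans (Real.exp_le_exp.2 (by nlinarith))
        rw [← hG] at d2
        have h8 := norm_nonneg (XX (I * T + 2 + a))
        have h9 : Real.exp (-(3 / 2 * a * Om T)) * ‖XX (I * T + 2 + a)‖ ≤ 1 / 2 * ‖XX (I * T + 2 + a)‖ :=
          mul_le_mul_of_nonneg_right h6 h8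
        nlinarith
    obtain ⟨y1, y2⟩ := hyp w₁ hw₁ fun u c1 c2 c3 => by
      have := hH1 u c1 c2 c3
      linarith
    obtain ⟨z1, z2⟩ := hyp w₂ hw₂ fun u c1 c2 c3 => by
      have := hH2 u c1 c2 c3
      linarith
    have hclose : ∀ u ∈ ball (2 : ℂ) (1 / 2), ‖sh a w₁ (I * T + u) - sh a w₂ (I * T + u)‖ ≤
        Real.exp (-(a * Om T)) * ‖sh a w₂ (I * T + u)‖ := by
      intro u hu
      obtain ⟨c1, c2⟩ := hball _ u hu
      rw [abs_lt] at c1
      obtain ⟨d1, -, -⟩ := hrc T u t2 (by linarith) (by linarith) c2.le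
      unfold sh
      have e1 : XX (I * T + u + a) + w₁ * XX (I * T + u - a) - (XX (I * T + u + a) + w₂ * XX (I * T + u - a)) =
          (w₁ - w₂) * XX (I * T + u - a) := by ring
      rw [e1, norm_mul]
      have h5 : ‖XX (I * T + u + a)‖ - ‖w₂ * XX (I * T + u - a)‖ ≤
          ‖XX (I * T + u + a) + w₂ * XX (I * T + u - a)‖ := by
        have := norm_sub_norm_le (XX (I * T + u + a)) (-(w₂ * XX (I * T + u - a)))
        rwa [norm_neg, sub_neg_eq_add] at this
      rw [norm_mul, hw₂, one_mul] at h5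
      have h6 : Real.exp (-(3 / 2 * a * Om T)) ≤ 1 / 2 := by
        rw [Real.exp_neg, ← one_div]
        apply one_div_le_one_div_of_le (by norm_num)
        exact e2e.trans (Real.exp_le_exp.2 (by nlinarith))
      have h7 : 4 * Real.exp (-(3 / 2 * a * Om T)) ≤ Real.exp (-(a * Om T)) := by
        have h8 : Real.exp (-(a * Om T)) = Real.exp (1 / 2 * (a * Om T)) * Real.exp (-(3 / 2 * a * Om T)) := by
          rw [← Real.exp_add]; congr 1; ring
        rw [h8]
        apply mul_le_mul_of_nonneg_right _ (Real.exp_pos _).le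
        have h9 : (4 : ℝ) ≤ Real.exp 4 := by
          have := Real.add_one_le_exp (4 : ℝ)
          linarith
        exact h9.trans (Real.exp_le_exp.2 (by linarith))
      have h8 := norm_nonneg (XX (I * T + u + a))
      have h9 : Real.exp (-(3 / 2 * a * Om T)) * ‖XX (I * T + u + a)‖ ≤ 1 / 2 * ‖XX (I * T + u + a)‖ :=
        mul_le_mul_of_nonneg_right h6 h8
      have h10 : ‖XX (I * T + u + a)‖ ≤ 2 * ‖XX (I * T + u + a) + w₂ * XX (I * T + u - a)‖ := by linarith
      have hE := Real.exp_pos (-(3 / 2 * a * Om T))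
      have h11 := norm_nonneg (XX (I * T + u - a))
      calc ‖w₁ - w₂‖ * ‖XX (I * T + u - a)‖ ≤ 2 * (Real.exp (-(3 / 2 * a * Om T)) * ‖XX (I * T + u + a)‖) :=
            mul_le_mul hd2 d1 h11 (by norm_num)
        _ ≤ 2 * (Real.exp (-(3 / 2 * a * Om T)) * (2 * ‖XX (I * T + u + a) + w₂ * XX (I * T + u - a)‖)) := by
            have := mul_le_mul_of_nonneg_left h10 hE.le
            linarith
        _ = (4 * Real.exp (-(3 / 2 * a * Om T))) * ‖XX (I * T + u + a) + w₂ * XX (I * T + u - a)‖ := by ring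
        _ ≤ _ := mul_le_mul_of_nonneg_right h7 (norm_nonneg _)
    have hfin := hq (Om T) G (fun v => sh a w₁ (I * T + v)) (fun v => sh a w₂ (I * T + v)) 2 hOL hG0
      y1 z1 y2 z2 hclose ((z.re - a : ℝ) : ℂ) (by
        rw [mem_closedBall_iff_norm]
        have e : ((z.re - a : ℝ) : ℂ) - 2 = ((z.re - a - 2 : ℝ) : ℂ) := by push_cast; ring
        rw [e, Complex.norm_real, Real.norm_eq_abs, abs_le]
        constructor <;> linarith)
    have hnz := (z1 ((z.re - a : ℝ) : ℂ) (by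
        rw [mem_ball_iff_norm]
        have e : ((z.re - a : ℝ) : ℂ) - 2 = ((z.re - a - 2 : ℝ) : ℂ) := by push_cast; ring
        rw [e, Complex.norm_real, Real.norm_eq_abs, abs_lt]
        constructor <;> linarith)).2.1
    have ez : I * (T : ℂ) + ((z.re - a : ℝ) : ℂ) + a = z := by
      rw [hT]
      apply Complex.ext <;> simp
    unfold sh at hfin hnz
    rw [ez, hz0] at hfin hnz
    rw [zero_add, zero_add, ← sub_mul, norm_mul, norm_mul, hw₂, one_mul] at hfin
    rw [zero_add] at hnz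
    have hy := norm_pos_iff.2 (right_ne_zero_of_mul hnz)
    nlinarith
  refine (F_fin 0 (a + ε') (1 / 2) |T0|).subset ?_
  rintro z ⟨c1, c2⟩
  have hzh : z.re ≤ 1 / 2 := (le_abs_self _).trans (F_half c2)
  refine ⟨c1.le, hzh, ?_, c2⟩
  by_contra hcon
  push Not at hcon
  rw [F_zero] at c2
  rcases le_total 0 z.im with h3 | h3
  · rw [abs_of_nonneg h3] at hcon
    exact key z (by linarith) ((le_abs_self _).trans hcon.le) c2
  · rw [abs_of_nonpos h3] at hcon
    refine key (conj z) (by simp; linarith) (by simpa using (le_abs_self _).trans hcon.le) ?_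
    rw [XX_conj, c2, map_zero]

/-- the equivalence -/
theorem main {a : ℝ} (ha : 0 < a) (ha1 : a < 1 / 2) {w₁ w₂ : ℂ} (hw₁ : ‖w₁‖ = 1) (hw₂ : ‖w₂‖ = 1)
    (hne : w₁ ≠ w₂) : List.TFAE [Asy (1 / 2 + a), BZ a, ∀ w : ℂ, ‖w‖ = 1 → FZ a w, FZ a w₁ ∧ FZ a w₂] := by
  tfae_have 1 → 2 := fun h => bz_of ha ha1 (ct_of_AF ha.le ha1 ((af_iff ha.le).2 h))
  tfae_have 2 → 3 := fun h w hw => fz_of h hw
  tfae_have 3 → 4 := fun h => ⟨h _ hw₁, h _ hw₂⟩
  tfae_have 4 → 1 := fun h => (af_iff ha.le).1 (af_of ha ha1 hw₁ hw₂ hne h.1 h.2)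
  tfae_finish

end Pool.Agent.Q27.ZS
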