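import Pool.Agent.Q27.SZ1
import Pool.Agent.Q27.ZS2
import Pool.Agent.W186.LH.Fin

/-!
# The growth of zeta to the right of a line and the zeros of shifted sums: local statements
-/

set_option autoImplicit false

namespace Pool.Agent.Q27.LS

open Complex Filter Topology
open scoped ComplexConjugate
open Pool.Agent.H24R2.JP (XX HH Om)
open Pool.Agent.W186.HZ (CT ct_half prof profL Om_large HH_move)
open Pool.Agent.W186.SN (UB plk)
open Pool.Agent.W186.LH (Ex Ex_of)
open Pool.Agent.W169.HF (Cnt cnt_mono tcz_all)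
open Pool.Agent.Q27.SZ (shf shf_diff fwdS)
open Pool.Agent.Q27.ZS (sh sh_diff XX_d norm_sym eq_pt)

lemma Om_pos {T : ℝ} (hT : 400 ≤ T) : 0 < Om T := by
  unfold Om
  have := Real.log_pos (show (1 : ℝ) < T by linarith)
  linarith

lemma Om_near {T h R : ℝ} (hT : 400 ≤ T) (hR : 0 ≤ R) (h1 : |h| ≤ R) (hTR : 2 * R ≤ T) :
    Om (T + h) ≤ Om T + 1 ∧ Om T ≤ Om (T + h) + 1 := by
  have h1' := abs_le.1 h1
  have hp : 0 < T + h := by linarith
  have hl2 := Real.log_two_lt_d9
  unfold Om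
  constructor
  · have : Real.log (T + h) ≤ Real.log (2 * T) := Real.log_le_log hp (by linarith)
    rw [Real.log_mul (by norm_num) (by linarith)] at this
    linarith
  · have : Real.log T ≤ Real.log (2 * (T + h)) := Real.log_le_log (by linarith) (by linarith)
    rw [Real.log_mul (by norm_num) (by linarith)] at this
    linarith

/-- the majorant from the bounds on the lines to the right of `a` -/
lemma ub_a {a : ℝ} (ha : 0 < a) (ha1 : a < 1 / 2) (hD : ∀ r : ℝ, a < r → r ≤ 1 / 2 → Ex (1 / 2 + r) 0) :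
    UB (fun r => max r a) := by
  intro ε' R hε' hR
  obtain ⟨ε, hε, hεε', hε1⟩ : ∃ ε : ℝ, 0 < ε ∧ ε ≤ ε' ∧ ε ≤ 1 :=
    ⟨min ε' 1, lt_min hε' one_pos, min_le_left _ _, min_le_right _ _⟩
  obtain ⟨N, hN⟩ : ∃ N : ℕ, N = ⌈4 / ε⌉₊ + 1 := ⟨_, rfl⟩
  have hN0 : (0 : ℝ) < N := by rw [hN]; push_cast; positivity
  have hN1 : 4 / ε ≤ N := by
    rw [hN]; push_cast
    have := Nat.le_ceil (4 / ε)
    linarith
  obtain ⟨h, hh⟩ : ∃ h : ℝ, h = (1 / 2 - a) / N := ⟨_, rfl⟩
  have ha2 : 0 < 1 / 2 - a := by linarith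
  have hh0 : 0 < h := by rw [hh]; positivity
  have hh1 : h ≤ ε / 4 := by
    rw [hh, div_le_iff₀ hN0]
    rw [div_le_iff₀ hε] at hN1
    nlinarith
  have hNh : N * h = 1 / 2 - a := by rw [hh]; field_simp
  obtain ⟨T1, hT1, hp⟩ := prof (y := 1 / 2) (by norm_num) le_rfl ct_half (ε / 2) R (by linarith) hR
  have hk : ∀ k ∈ Finset.Icc 1 N, ∀ᶠ T : ℝ in atTop, ∀ u : ℂ, |u.re| ≤ a + k * h → |u.im| ≤ 1 →
      ‖XX (I * T + u)‖ ≤ Real.exp (Om T * (a + k * h + ε / 2)) * ‖HH (I * T)‖ := by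
    intro k hk
    rw [Finset.mem_Icc] at hk
    have k1 : (1 : ℝ) ≤ k := by exact_mod_cast hk.1
    have k2 : (k : ℝ) ≤ N := by exact_mod_cast hk.2
    have e1 : 0 < (k : ℝ) * h := by positivity
    have e2 : (k : ℝ) * h ≤ 1 / 2 - a := by
      rw [← hNh]; gcongr
    obtain ⟨C, hz⟩ := hD (a + k * h) (by linarith) (by linarith) (ε / 8) (by linarith)
    obtain ⟨T0, hT0, h0⟩ := plk (a + k * h) (ε / 8) (max C 1) (by linarith) (by linarith) (by linarith)
      (by linarith) (lt_of_lt_of_le one_pos (le_max_right _ _)) (by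
        intro t ht
        have h3 := hz t (by rw [abs_of_nonneg (by linarith)]; linarith)
        rw [abs_of_nonneg (by linarith : 0 ≤ t), zero_add] at h3
        have e : (1 / 2 + ((a + k * h : ℝ) : ℂ) + t * I) = ((1 / 2 + (a + k * h) : ℝ) : ℂ) + t * I := by
          push_cast; ring
        rw [e]
        refine h3.trans ?_
        exact mul_le_mul_of_nonneg_right (le_max_left _ _) (by positivity)) (ε / 4) (by linarith)
    filter_upwards [eventually_ge_atTop T0] with T hT u hu1 hu2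
    refine (h0 T hT u hu1 hu2).trans (le_of_eq ?_)
    congr 3
    ring
  rw [← Filter.eventually_all_finset] at hk
  obtain ⟨T2, hT2⟩ := Filter.eventually_atTop.1 hk
  refine ⟨max T1 T2, hT1.trans (le_max_left _ _), fun T hT u hu0 hu1 hu2 => ?_⟩
  have g1 : T1 ≤ T := (le_max_left _ _).trans hT
  have g2 : T2 ≤ T := (le_max_right _ _).trans hT
  have hOp : 0 ≤ Om T := (Om_pos (hT1.trans g1)).le
  have hb := hp T g1 u hu0 hu1 hu2
  have hmono : ∀ a b : ℝ, a ≤ b → Real.exp (Om T * a) * ‖HH (I * T)‖ ≤ Real.exp (Om T * b) * ‖HH (I * T)‖ := by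
    intro a b hab
    have := Real.exp_le_exp.2 (mul_le_mul_of_nonneg_left hab hOp)
    gcongr
  rcases le_or_gt (1 / 2) u.re with c1 | c1
  · refine hb.trans (hmono _ _ ?_)
    rw [max_eq_left c1]
    have := le_max_left u.re a
    linarith
  · rcases le_or_gt u.re a with c2 | c2
    · have k3 : 1 ∈ Finset.Icc 1 N := by
        rw [Finset.mem_Icc]
        exact ⟨le_rfl, by omega⟩
      refine (hT2 T g2 1 k3 u (by rw [abs_of_nonneg hu0]; push_cast; linarith) hu2).trans (hmono _ _ ?_)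
      have := le_max_right u.re a
      push_cast
      linarith
    · obtain ⟨k, hkd⟩ : ∃ k : ℕ, k = ⌊(u.re - a) / h⌋₊ + 1 := ⟨_, rfl⟩
      have hq0 : 0 ≤ (u.re - a) / h := div_nonneg (by linarith) hh0.le
      have k1 := Nat.floor_le hq0
      have k2 := Nat.lt_floor_add_one ((u.re - a) / h)
      rw [le_div_iff₀ hh0] at k1
      rw [div_lt_iff₀ hh0] at k2
      have k2' : u.re ≤ a + k * h := by rw [hkd]; push_cast; linarith
      have k1' : k * h ≤ u.re - a + h := by rw [hkd]; push_cast; linarith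
      have k3 : k ∈ Finset.Icc 1 N := by
        rw [Finset.mem_Icc]
        constructor
        · omega
        · have h5 : (⌊(u.re - a) / h⌋₊ : ℝ) * h < N * h := by rw [hNh]; linarith
          have h6 := lt_of_mul_lt_mul_right h5 hh0.le
          have h7 : ⌊(u.re - a) / h⌋₊ < N := by exact_mod_cast h6
          omega
      refine (hT2 T g2 k k3 u (by rw [abs_of_nonneg hu0]; exact k2') hu2).trans (hmono _ _ ?_)
      have := le_max_left u.re a
      linarith

/-- upper bounds in large windows -/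
lemma win_up {b : ℝ} (hb0 : 0 ≤ b) (h : UB (fun r => max r b)) (κ R : ℝ) (hκ : 0 < κ) (hR : 1 ≤ R)
    (hbR : b ≤ R) :
    ∃ T0 : ℝ, 400 ≤ T0 ∧ ∀ T : ℝ, T0 ≤ T → ∀ u : ℂ, |u.re| ≤ R → |u.im| ≤ R →
      ‖XX (I * T + u)‖ ≤ ‖HH (I * T)‖ * Real.exp (Om T * max |u.re| b + κ * Om T) := by
  obtain ⟨T1, hT1, hU⟩ := h (κ / 2) R (by linarith) hR
  obtain ⟨T2, hT2, hM⟩ := HH_move
  obtain ⟨T3, hT3, hO⟩ := Om_large ((2 * R + κ / 2) * 2 / κ)
  refine ⟨max (max T1 T2) T3 + 2 * R, by have := le_max_right (max T1 T2) T3; linarith, ?_⟩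
  intro T hT u h1 h2
  have g0 := le_max_left (max T1 T2) T3
  have g5 := le_max_right (max T1 T2) T3
  have g1 : T1 ≤ T - R := by have := le_max_left T1 T2; linarith
  have g2 : T2 ≤ T - R := by have := le_max_right T1 T2; linarith
  have g3 : T3 ≤ T := by have := le_max_right (max T1 T2) T3; linarith
  have hOm := hO T g3
  rw [div_le_iff₀ hκ] at hOm
  have h2' := abs_le.1 h2
  have hT4 : 400 ≤ T := by linarith
  obtain ⟨o1, -⟩ := Om_near hT4 (by linarith) h2 (by linarith)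
  have hOp : 0 ≤ Om (T + u.im) := (Om_pos (by linarith)).le
  have hG : 0 ≤ ‖HH (I * T)‖ := norm_nonneg _
  have hm := hM T u.im (by linarith) (by linarith)
  have e : I * (T : ℂ) + u = I * ((T + u.im : ℝ) : ℂ) + (u.re : ℂ) := by
    apply Complex.ext <;> simp
  have key : ‖XX (I * ((T + u.im : ℝ) : ℂ) + (u.re : ℂ))‖ ≤
      Real.exp (Om (T + u.im) * (max |u.re| b + κ / 2)) * ‖HH (I * ((T + u.im : ℝ) : ℂ))‖ := by
    rcases le_total 0 u.re with h0 | h0
    · rw [abs_of_nonneg h0] at h1 ⊢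
      have := hU (T + u.im) (by linarith) (u.re : ℂ) (by simpa using h0) (by simpa using h1) (by simp)
      simpa using this
    · rw [abs_of_nonpos h0] at h1 ⊢
      have := hU (T + u.im) (by linarith) ((-u.re : ℝ) : ℂ) (by simpa using h0) (by simpa using h1) (by simp)
      rw [norm_sym] at this
      simpa using this
  rw [e]
  refine key.trans ?_
  have hmx : max |u.re| b ≤ R := max_le h1 hbR
  have hmx0 : 0 ≤ max |u.re| b := (abs_nonneg _).trans (le_max_left _ _)
  have h3 : Om (T + u.im) * (max |u.re| b + κ / 2) ≤ (Om T + 1) * (max |u.re| b + κ / 2) :=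
    mul_le_mul_of_nonneg_right o1 (by positivity)
  calc Real.exp (Om (T + u.im) * (max |u.re| b + κ / 2)) * ‖HH (I * ((T + u.im : ℝ) : ℂ))‖
      ≤ Real.exp ((Om T + 1) * (max |u.re| b + κ / 2)) * (Real.exp R * ‖HH (I * T)‖) := by
        apply mul_le_mul (Real.exp_le_exp.2 h3) _ (norm_nonneg _) (Real.exp_pos _).le
        exact hm.trans (mul_le_mul_of_nonneg_right (Real.exp_le_exp.2 h2) hG)
    _ = ‖HH (I * T)‖ * Real.exp ((Om T + 1) * (max |u.re| b + κ / 2) + R) := by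
        rw [Real.exp_add]; ring
    _ ≤ _ := by
        apply mul_le_mul_of_nonneg_left _ hG
        apply Real.exp_le_exp.2
        nlinarith

/-- the lower bound in large windows -/
lemma win_lo (κ R : ℝ) (hκ : 0 < κ) (hR : 1 ≤ R) :
    ∃ T0 : ℝ, 400 ≤ T0 ∧ ∀ T : ℝ, T0 ≤ T → ∀ u : ℂ, 1 ≤ u.re → u.re ≤ R → |u.im| ≤ R →
      ‖HH (I * T)‖ * Real.exp (Om T * u.re - κ * Om T) ≤ ‖XX (I * T + u)‖ := by
  obtain ⟨κ', hκ'd⟩ : ∃ κ' : ℝ, κ' = min (κ / 2) (1 / 2) := ⟨_, rfl⟩
  have hκ' : 0 < κ' := by rw [hκ'd]; exact lt_min (by linarith) (by norm_num)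
  have hκ1 : κ' ≤ κ / 2 := by rw [hκ'd]; exact min_le_left _ _
  have hκ2 : κ' ≤ 1 / 2 := by rw [hκ'd]; exact min_le_right _ _
  obtain ⟨T1, hT1, hU⟩ := profL (y := 1 / 2) (by norm_num) ct_half κ' R hκ' hR
  obtain ⟨T2, hT2, hM⟩ := HH_move
  obtain ⟨T3, hT3, hO⟩ := Om_large ((2 * R) * 2 / κ)
  refine ⟨max (max T1 T2) T3 + 2 * R, by have := le_max_right (max T1 T2) T3; linarith, ?_⟩
  intro T hT u h0 h1 h2
  have g0 := le_max_left (max T1 T2) T3
  have g5 := le_max_right (max T1 T2) T3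
  have g1 : T1 ≤ T - R := by have := le_max_left T1 T2; linarith
  have g2 : T2 ≤ T - R := by have := le_max_right T1 T2; linarith
  have g3 : T3 ≤ T := by have := le_max_right (max T1 T2) T3; linarith
  have hOm := hO T g3
  rw [div_le_iff₀ hκ] at hOm
  have h2' := abs_le.1 h2
  have hT4 : 400 ≤ T := by linarith
  obtain ⟨-, o1⟩ := Om_near hT4 (by linarith) h2 (by linarith)
  have hm := hM (T + u.im) (-u.im) (by linarith) (by linarith)
  rw [show T + u.im + -u.im = T by ring, abs_neg] at hm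
  have e : I * (T : ℂ) + u = I * ((T + u.im : ℝ) : ℂ) + (u.re : ℂ) := by
    apply Complex.ext <;> simp
  obtain ⟨-, -, key, -⟩ := hU (T + u.im) (by linarith) (u.re : ℂ) (by simp; linarith) (by simpa using h1)
    (by simp)
  rw [Complex.ofReal_re] at key
  rw [e]
  refine le_trans ?_ key
  calc ‖HH (I * T)‖ * Real.exp (Om T * u.re - κ * Om T)
      ≤ (Real.exp R * ‖HH (I * ((T + u.im : ℝ) : ℂ))‖) * Real.exp (Om T * u.re - κ * Om T) := by
        apply mul_le_mul_of_nonneg_right _ (Real.exp_pos _).le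
        exact hm.trans (mul_le_mul_of_nonneg_right (Real.exp_le_exp.2 h2) (norm_nonneg _))
    _ = Real.exp (R + (Om T * u.re - κ * Om T)) * ‖HH (I * ((T + u.im : ℝ) : ℂ))‖ := by
        rw [Real.exp_add]; ring
    _ ≤ _ := by
        apply mul_le_mul_of_nonneg_right _ (norm_nonneg _)
        apply Real.exp_le_exp.2
        have h3 : (Om T - 1) * (u.re - κ') ≤ Om (T + u.im) * (u.re - κ') :=
          mul_le_mul_of_nonneg_right (by linarith) (by linarith)
        have h4 : 0 ≤ Om T := (Om_pos hT4).le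
        nlinarith

/-- translation of counts -/
lemma cnt_tr {G : ℂ → ℂ} (hG : Differentiable ℂ G) (hne : ∃ u, G u ≠ 0) {b : ℂ} {A B : Set ℂ} {c : ℝ}
    (hAB : ∀ z ∈ B, z - b ∈ A) (h : Cnt (fun u => G (b + u)) A c) : Cnt G B c := by
  classical
  intro S hS
  have h1 := h (S.image fun z => z - b) (by
    intro z hz
    rw [Finset.mem_image] at hz
    obtain ⟨w, hw, rfl⟩ := hz
    obtain ⟨h1, h2⟩ := hS w hw
    refine ⟨?_, hAB w h2⟩
    show G (b + (w - b)) = 0
    rw [show b + (w - b) = w by ring]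
    exact h1)
  rw [Finset.sum_image (by intro x _ y _ hxy; simpa using hxy)] at h1
  refine le_trans (le_of_eq ?_) h1
  apply Finset.sum_congr rfl
  intro z _
  have h2 := Pool.Agent.W186.LH.ord_tr (E := fun _ => 1) hG hne (a := 1) (b := b) one_ne_zero (by fun_prop)
    (fun _ => one_ne_zero) (z - b)
  have e : (fun u : ℂ => G (1 * u + b) * 1) = fun u => G (b + u) := by
    funext u
    rw [mul_one, one_mul, add_comm]
  rw [e, one_mul, sub_add_cancel] at h2
  rw [h2]

lemma cnt_tr' {G : ℂ → ℂ} (hG : Differentiable ℂ G) (hne : ∃ u, G u ≠ 0) {b : ℂ} {A B : Set ℂ} {c : ℝ}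
    (hAB : ∀ z ∈ A, b + z ∈ B) (h : Cnt G B c) : Cnt (fun u => G (b + u)) A c := by
  obtain ⟨u0, hu0⟩ := hne
  refine cnt_tr (b := -b) (A := B) (hG.comp (by fun_prop)) ⟨u0 - b, ?_⟩ (fun z hz => ?_) ?_
  · show G (b + (u0 - b)) ≠ 0
    rw [show b + (u0 - b) = u0 by ring]
    exact hu0
  · rw [show z - -b = b + z by ring]
    exact hAB z hz
  · have e : (fun u : ℂ => G (b + (-b + u))) = G := by
      funext u
      rw [show b + (-b + u) = u by ring]
    show Cnt (fun u : ℂ => G (b + (-b + u))) B c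
    rw [e]
    exact h

/-- covering a window by unit windows -/
lemma cnt_cover {F : ℂ → ℂ} {A : Set ℂ} {y c R : ℝ} {J : ℕ} (hRJ : R + 1 ≤ J)
    (h : ∀ j : ℤ, |j| ≤ J → Cnt F {z : ℂ | z ∈ A ∧ |z.im - (y + j)| ≤ 1} c) :
    Cnt F {z : ℂ | z ∈ A ∧ |z.im - y| ≤ R} ((2 * J + 1) * c) := by
  classical
  intro S hS
  have hmap : ∀ z ∈ S, round (z.im - y) ∈ Finset.Icc (-(J : ℤ)) J := by
    intro z hz
    have h1 := (hS z hz).2.2
    have h2 := abs_sub_round (z.im - y)
    rw [Finset.mem_Icc, ← abs_le]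
    have h3 : |((round (z.im - y) : ℤ) : ℝ)| ≤ J := by
      have h4 : |((round (z.im - y) : ℤ) : ℝ)| ≤ |z.im - y| + 1 / 2 := by
        have h9 := abs_sub_abs_le_abs_sub ((round (z.im - y) : ℤ) : ℝ) (z.im - y)
        rw [abs_sub_comm ((round (z.im - y) : ℤ) : ℝ) (z.im - y)] at h9
        linarith
      linarith
    exact_mod_cast h3
  rw [← Finset.sum_fiberwise_of_maps_to hmap]
  have h5 : ∀ j ∈ Finset.Icc (-(J : ℤ)) J,
      ∑ z ∈ S.filter (fun z => round (z.im - y) = j), (analyticOrderNatAt F z : ℝ) ≤ c := by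
    intro j hj
    rw [Finset.mem_Icc, ← abs_le] at hj
    refine h j hj _ fun z hz => ?_
    rw [Finset.mem_filter] at hz
    obtain ⟨h6, h7⟩ := hS z hz.1
    refine ⟨h6, h7.1, ?_⟩
    have h8 := abs_sub_round (z.im - y)
    rw [hz.2] at h8
    rw [show z.im - (y + j) = z.im - y - j by ring]
    linarith
  refine (Finset.sum_le_sum h5).trans ?_
  rw [Finset.sum_const, Int.card_Icc, nsmul_eq_mul]
  have e : ((((J : ℤ) + 1 - -(J : ℤ)).toNat : ℕ) : ℝ) = 2 * J + 1 := by
    have : ((J : ℤ) + 1 - -(J : ℤ)).toNat = 2 * J + 1 := by omega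
    rw [this]
    push_cast
    ring
  rw [e]

end Pool.Agent.Q27.LS
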