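import Pool.Agent.Q27.LS1

/-!
# The Lindelof hypothesis to the right of a line and the zeros of shifted sums
-/

set_option autoImplicit false

namespace Pool.Agent.Q27.LS

open Complex Filter Topology
open scoped ComplexConjugate
open Pool.Agent.H24R2.JP (XX HH Om)
open Pool.Agent.W186.HZ (CT ct_half prof profL Om_large HH_move)
open Pool.Agent.W186.SN (UB plk)
open Pool.Agent.W186.LH (Ex Ex_of LHyp Few few_iff lh_iff)
open Pool.Agent.W169.HF (Cnt cnt_mono tcz_all)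
open Pool.Agent.Q27.SZ (shf shf_diff fwdS)
open Pool.Agent.Q27.ZS (sh sh_diff XX_d norm_sym eq_pt)

/-- the bound, from few zeros of two shifted sums -/
theorem bwd_loc {a ρ κ R1 : ℝ} (ha : 0 < a)
    (ha1 : a < 1 / 2) (hρ : 0 < ρ) (hρ1 : ρ ≤ 1) (hκ : 0 < κ) (hR1 : 1 ≤ R1) :
    ∃ κ1 R ℓ0 : ℝ, 0 < κ1 ∧ 3 ≤ R ∧ ∀ (ℓ G : ℝ) (f : ℂ → ℂ) (w₁ w₂ : ℂ), ℓ0 ≤ ℓ → 0 < G →
      Differentiable ℂ f →
      (∀ u : ℂ, 1 ≤ u.re → u.re ≤ R → |u.im| ≤ R → G * Real.exp (ℓ * u.re - κ1 * ℓ) ≤ ‖f u‖) →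
      (∀ u : ℂ, |u.re| ≤ R → |u.im| ≤ R → ‖f u‖ ≤ G * Real.exp (ℓ * max |u.re| 1 + κ1 * ℓ)) →
      ‖w₁‖ = 1 → ‖w₂‖ = 1 → w₁ ≠ w₂ →
      Cnt (shf a w₁ f) {z : ℂ | κ1 ≤ z.re ∧ z.re ≤ R ∧ |z.im| ≤ R} (κ1 * ℓ) →
      Cnt (shf a w₂ f) {z : ℂ | κ1 ≤ z.re ∧ z.re ≤ R ∧ |z.im| ≤ R} (κ1 * ℓ) →
      ∀ u : ℂ, a + ρ ≤ u.re → u.re ≤ R1 → |u.im| ≤ R1 →
        ‖f u‖ ≤ 2 / ‖w₂ - w₁‖ * (G * Real.exp (ℓ * u.re + κ * ℓ)) := by
  obtain ⟨κt, Rt, hκt, hRt, HT⟩ := tcz_all 3 2 ρ κ R1 (by norm_num) (by norm_num) (by norm_num) hρ hρ1 hκ hR1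
  obtain ⟨κ1, hκ1d⟩ : ∃ κ1 : ℝ, κ1 = min (κt / 2) (a / 2) := ⟨_, rfl⟩
  have hκ1 : 0 < κ1 := by rw [hκ1d]; exact lt_min (by positivity) (by positivity)
  have hκ1t : κ1 ≤ κt / 2 := by rw [hκ1d]; exact min_le_left _ _
  have hκ1a : κ1 ≤ a / 2 := by rw [hκ1d]; exact min_le_right _ _
  have hRt0 : 0 < Rt := by linarith
  refine ⟨κ1, Rt + 3, max (2 / κt) (1 / a) + 1, hκ1, by linarith, ?_⟩
  intro ℓ G f w₁ w₂ hℓ hG hf low upp hw₁ hw₂ hne hc₁ hc₂
  have hm1 := le_max_left (2 / κt) (1 / a)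
  have hm2 := le_max_right (2 / κt) (1 / a)
  have hp1 : 0 < 2 / κt := by positivity
  have hp2 : 0 < 1 / a := by positivity
  have hℓ0 : 0 < ℓ := by linarith
  have hℓκ : 1 ≤ κt / 2 * ℓ := by
    have : 2 / κt ≤ ℓ := by linarith
    rw [div_le_iff₀ hκt] at this
    linarith
  have hℓa : 1 ≤ a * ℓ := by
    have : 1 / a ≤ ℓ := by linarith
    rw [div_le_iff₀ ha] at this
    linarith
  have h2e : (2 : ℝ) ≤ Real.exp 1 := by
    have := Real.add_one_le_exp (1 : ℝ)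
    linarith
  have hℓ1 : 1 ≤ ℓ := by linarith
  have hb1 : ∀ u : ℂ, (u + (a : ℂ)).re = u.re + a := fun u => by simp
  have hb2 : ∀ u : ℂ, (u - (a : ℂ)).re = u.re - a := fun u => by simp
  have hb3 : ∀ u : ℂ, (u + (a : ℂ)).im = u.im := fun u => by simp
  have hb4 : ∀ u : ℂ, (u - (a : ℂ)).im = u.im := fun u => by simp
  have key : ∀ w : ℂ, ‖w‖ = 1 →
      Cnt (shf a w f) {z : ℂ | κ1 ≤ z.re ∧ z.re ≤ Rt + 3 ∧ |z.im| ≤ Rt + 3} (κ1 * ℓ) →
      ∀ u : ℂ, ρ ≤ u.re → u.re ≤ R1 → |u.im| ≤ R1 →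
        ‖shf a w f u‖ ≤ G * Real.exp (ℓ * a) * Real.exp (ℓ * u.re + κ * ℓ) := by
    intro w hw hc
    have hnorm : ∀ u : ℂ, ‖shf a w f u‖ ≤ ‖f (u + a)‖ + ‖f (u - a)‖ := fun u => by
      calc ‖shf a w f u‖ ≤ ‖f (u + a)‖ + ‖w * f (u - a)‖ := norm_add_le _ _
        _ = ‖f (u + a)‖ + ‖f (u - a)‖ := by rw [norm_mul, hw, one_mul]
    refine HT ℓ (G * Real.exp (ℓ * a)) (shf a w f) hℓ0 (by positivity) (shf_diff hf) ?_ ?_ ?_
    · intro u hu0 hu1 hu2
      have h3 := upp (u + a) (by rw [hb1, abs_le]; constructor <;> linarith) (by rw [hb3]; linarith)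
      have h4 := upp (u - a) (by rw [hb2, abs_le]; constructor <;> linarith) (by rw [hb4]; linarith)
      rw [hb1] at h3
      rw [hb2] at h4
      have h5 : max |u.re + a| 1 ≤ u.re + a + 1 :=
        max_le (abs_le.2 ⟨by linarith, by linarith⟩) (by linarith)
      have h6 : max |u.re - a| 1 ≤ u.re + a + 1 :=
        max_le (abs_le.2 ⟨by linarith, by linarith⟩) (by linarith)
      have h9 : ‖f (u + a)‖ ≤ G * Real.exp (ℓ * (u.re + a + 1) + κ1 * ℓ) := by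
        refine h3.trans (mul_le_mul_of_nonneg_left (Real.exp_le_exp.2 ?_) hG.le)
        have := mul_le_mul_of_nonneg_left h5 hℓ0.le
        linarith
      have h10 : ‖f (u - a)‖ ≤ G * Real.exp (ℓ * (u.re + a + 1) + κ1 * ℓ) := by
        refine h4.trans (mul_le_mul_of_nonneg_left (Real.exp_le_exp.2 ?_) hG.le)
        have := mul_le_mul_of_nonneg_left h6 hℓ0.le
        linarith
      calc ‖shf a w f u‖ ≤ ‖f (u + a)‖ + ‖f (u - a)‖ := hnorm u
        _ ≤ 2 * (G * Real.exp (ℓ * (u.re + a + 1) + κ1 * ℓ)) := by linarith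
        _ ≤ Real.exp 1 * (G * Real.exp (ℓ * (u.re + a + 1) + κ1 * ℓ)) :=
            mul_le_mul_of_nonneg_right h2e (by positivity)
        _ = G * Real.exp (1 + (ℓ * (u.re + a + 1) + κ1 * ℓ)) := by
            rw [Real.exp_add 1]; ring
        _ ≤ G * Real.exp (ℓ * a + (ℓ * u.re + 3 * ℓ)) := by
            apply mul_le_mul_of_nonneg_left _ hG.le
            apply Real.exp_le_exp.2
            have : κ1 * ℓ ≤ 1 * ℓ := mul_le_mul_of_nonneg_right (by linarith) hℓ0.le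
            linarith
        _ = _ := by rw [Real.exp_add (ℓ * a)]; ring
    · intro u hu0 hu1 hu2
      have h3 := low (u + a) (by rw [hb1]; linarith) (by rw [hb1]; linarith) (by rw [hb3]; linarith)
      have h4 := upp (u + a) (by rw [hb1, abs_le]; constructor <;> linarith) (by rw [hb3]; linarith)
      have h5 := upp (u - a) (by rw [hb2, abs_le]; constructor <;> linarith) (by rw [hb4]; linarith)
      rw [hb1] at h3
      rw [hb1, abs_of_nonneg (by linarith), max_eq_left (by linarith)] at h4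
      rw [hb2, abs_of_nonneg (by linarith), max_eq_left (by linarith)] at h5
      constructor
      · have h6 : ‖f (u + a)‖ - ‖f (u - a)‖ ≤ ‖shf a w f u‖ := by
          have := norm_sub_le (shf a w f u) (w * f (u - a))
          have e : shf a w f u - w * f (u - a) = f (u + a) := by unfold shf; ring
          rw [e, norm_mul, hw, one_mul] at this
          linarith
        have h7 : 2 * (G * Real.exp (ℓ * (u.re - a) + κ1 * ℓ)) ≤ G * Real.exp (ℓ * (u.re + a) - κ1 * ℓ) := by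
          calc 2 * (G * Real.exp (ℓ * (u.re - a) + κ1 * ℓ)) ≤
              Real.exp 1 * (G * Real.exp (ℓ * (u.re - a) + κ1 * ℓ)) :=
                mul_le_mul_of_nonneg_right h2e (by positivity)
            _ = G * Real.exp (ℓ * (u.re - a) + κ1 * ℓ + 1) := by rw [Real.exp_add _ 1]; ring
            _ ≤ _ := by
                apply mul_le_mul_of_nonneg_left _ hG.le
                apply Real.exp_le_exp.2
                have := mul_le_mul_of_nonneg_right hκ1a hℓ0.le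
                nlinarith
        have h8 : 2 * (G * Real.exp (ℓ * a) * Real.exp (ℓ * u.re - κt * ℓ)) ≤
            G * Real.exp (ℓ * (u.re + a) - κ1 * ℓ) := by
          calc 2 * (G * Real.exp (ℓ * a) * Real.exp (ℓ * u.re - κt * ℓ)) ≤
              Real.exp 1 * (G * Real.exp (ℓ * a) * Real.exp (ℓ * u.re - κt * ℓ)) :=
                mul_le_mul_of_nonneg_right h2e (by positivity)
            _ = G * Real.exp (1 + (ℓ * a + (ℓ * u.re - κt * ℓ))) := by
                rw [Real.exp_add 1, Real.exp_add (ℓ * a)]; ring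
            _ ≤ _ := by
                apply mul_le_mul_of_nonneg_left _ hG.le
                apply Real.exp_le_exp.2
                have := mul_le_mul_of_nonneg_right hκ1t hℓ0.le
                linarith
        linarith
      · have h6 : G * Real.exp (ℓ * (u.re - a) + κ1 * ℓ) ≤ G * Real.exp (ℓ * (u.re + a) + κ1 * ℓ) := by
          apply mul_le_mul_of_nonneg_left _ hG.le
          apply Real.exp_le_exp.2
          nlinarith
        calc ‖shf a w f u‖ ≤ ‖f (u + a)‖ + ‖f (u - a)‖ := hnorm u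
          _ ≤ 2 * (G * Real.exp (ℓ * (u.re + a) + κ1 * ℓ)) := by linarith
          _ ≤ Real.exp 1 * (G * Real.exp (ℓ * (u.re + a) + κ1 * ℓ)) :=
              mul_le_mul_of_nonneg_right h2e (by positivity)
          _ = G * Real.exp (ℓ * (u.re + a) + κ1 * ℓ + 1) := by rw [Real.exp_add _ 1]; ring
          _ ≤ G * Real.exp (ℓ * a + (ℓ * u.re + κt * ℓ)) := by
              apply mul_le_mul_of_nonneg_left _ hG.le
              apply Real.exp_le_exp.2
              have := mul_le_mul_of_nonneg_right hκ1t hℓ0.le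
              linarith
          _ = _ := by rw [Real.exp_add (ℓ * a)]; ring
    · refine cnt_mono hc (fun z hz => ?_) ?_
      · obtain ⟨hz1, hz2, hz3⟩ := hz
        exact ⟨by linarith, by linarith, by linarith⟩
      · have := mul_le_mul_of_nonneg_right hκ1t hℓ0.le
        have h3 : 0 ≤ κt * ℓ := by positivity
        linarith
  intro u hu0 hu1 hu2
  have k1 := key w₁ hw₁ hc₁ (u - a) (by rw [hb2]; linarith) (by rw [hb2]; linarith) (by rw [hb4]; exact hu2)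
  have k2 := key w₂ hw₂ hc₂ (u - a) (by rw [hb2]; linarith) (by rw [hb2]; linarith) (by rw [hb4]; exact hu2)
  have hd : 0 < ‖w₂ - w₁‖ := norm_pos_iff.2 (sub_ne_zero.2 hne.symm)
  have e : (w₂ - w₁) * f u = w₂ * shf a w₁ f (u - a) - w₁ * shf a w₂ f (u - a) := by
    unfold shf
    rw [sub_add_cancel]
    ring
  have e2 : G * Real.exp (ℓ * a) * Real.exp (ℓ * (u - (a : ℂ)).re + κ * ℓ) = G * Real.exp (ℓ * u.re + κ * ℓ) := by
    rw [hb2, mul_assoc, ← Real.exp_add]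
    congr 2
    ring
  rw [e2] at k1 k2
  have h3 : ‖w₂ - w₁‖ * ‖f u‖ ≤ 2 * (G * Real.exp (ℓ * u.re + κ * ℓ)) := by
    rw [← norm_mul, e]
    refine (norm_sub_le _ _).trans ?_
    rw [norm_mul, norm_mul, hw₁, hw₂, one_mul, one_mul]
    linarith
  rw [div_mul_eq_mul_div, le_div_iff₀ hd]
  linarith


/-- few zeros of the shifted sum to the right of the critical line, in windows -/
def FW (a : ℝ) (w : ℂ) : Prop := ∀ δ ε X : ℝ, 0 < δ → 0 < ε → ∃ T0 : ℝ, ∀ T : ℝ, T0 ≤ T →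
  Cnt (sh a w) {u : ℂ | δ ≤ u.re ∧ u.re ≤ X ∧ |u.im - T| ≤ 1} (ε * Real.log T)

/-- the same, uniformly in `w` -/
def FWU (a : ℝ) : Prop := ∀ δ ε X : ℝ, 0 < δ → 0 < ε → ∃ T0 : ℝ, ∀ (T : ℝ) (w : ℂ), T0 ≤ T → ‖w‖ = 1 →
  Cnt (sh a w) {u : ℂ | δ ≤ u.re ∧ u.re ≤ X ∧ |u.im - T| ≤ 1} (ε * Real.log T)

/-- bounds for zeta to the right -/
def LA (a : ℝ) : Prop := ∀ r : ℝ, a < r → r ≤ 1 / 2 → Ex (1 / 2 + r) 0

lemma shf_eq (a : ℝ) (w c : ℂ) : shf a w (fun u => XX (c + u)) = fun u => sh a w (c + u) := by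
  funext u
  unfold shf sh
  rw [add_assoc, add_sub_assoc]

lemma sh_ne {a : ℝ} (ha : 0 < a) (ha1 : a < 1 / 2) (w : ℂ) (hw : ‖w‖ = 1) : ∃ u, sh a w u ≠ 0 := by
  obtain ⟨T0, hT0, h⟩ := Pool.Agent.Q27.ZS.right_cmp ha ha1
  obtain ⟨h1, h2, h3⟩ := h T0 2 le_rfl (by simp; norm_num) (by simp; norm_num) (by simp)
  refine ⟨I * T0 + 2, fun h0 => ?_⟩
  have hOm := Om_pos hT0
  have h4 : XX (I * T0 + 2 + a) = -(w * XX (I * T0 + 2 - a)) := eq_neg_of_add_eq_zero_left h0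
  have h5 : ‖XX (I * T0 + 2 + a)‖ = ‖XX (I * T0 + 2 - a)‖ := by rw [h4, norm_neg, norm_mul, hw, one_mul]
  have h6 : Real.exp (-(3 / 2 * a * Om T0)) < 1 := by
    rw [Real.exp_lt_one_iff]
    have : 0 < 3 / 2 * a * Om T0 := by positivity
    linarith
  rw [← h5] at h1
  nlinarith

/-- few zeros, from the bounds -/
theorem fwd {a : ℝ} (ha : 0 < a) (ha1 : a < 1 / 2) (hD : LA a) : FWU a := by
  intro δ ε X hδ hε
  obtain ⟨κ, R, ℓ0, hκ, hR, H⟩ := fwdS (a := a) (δ := min δ 1) (ε := 2 * ε) (X := max X 1) ha ha1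
    (lt_min hδ one_pos) (min_le_right _ _) (by linarith) (le_max_right _ _)
  obtain ⟨T1, hT1, hup⟩ := win_up ha.le (ub_a ha ha1 hD) κ R hκ (by linarith) (by linarith)
  obtain ⟨T2, hT2, hlo⟩ := win_lo κ R hκ (by linarith)
  obtain ⟨T3, hT3, hO⟩ := Om_large ℓ0
  obtain ⟨T4, hT4, hrc⟩ := Pool.Agent.Q27.ZS.right_cmp ha ha1
  refine ⟨max (max T1 T2) (max T3 T4), fun T w hT hw => ?_⟩
  have g1 : T1 ≤ T := ((le_max_left _ _).trans (le_max_left _ _)).trans hT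
  have g2 : T2 ≤ T := ((le_max_right _ _).trans (le_max_left _ _)).trans hT
  have g3 : T3 ≤ T := ((le_max_left _ _).trans (le_max_right _ _)).trans hT
  have g4 : T4 ≤ T := ((le_max_right _ _).trans (le_max_right _ _)).trans hT
  have hG := (hrc T 2 g4 (by simp; norm_num) (by simp; norm_num) (by simp)).2.2
  have h1 := H (Om T) ‖HH (I * T)‖ (fun u => XX (I * T + u)) w (hO T g3) hG
    (XX_d.comp (by fun_prop)) hw (fun u h1 h2 => hup T g1 u h1 h2) (fun u h1 h2 h3 => hlo T g2 u h1 h2 h3)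
  rw [shf_eq] at h1
  have e : 2 * ε * Om T = ε * Real.log T := by
    unfold Om
    ring
  rw [e] at h1
  refine cnt_tr (sh_diff a w) (sh_ne ha ha1 w hw) (b := I * T) (fun z hz => ?_) h1
  obtain ⟨h2, h3, h4⟩ := hz
  have h5 := min_le_left δ 1
  have h6 := le_max_left X 1
  have h7 := le_max_right X 1
  have e1 : (z - I * (T : ℂ)).re = z.re := by simp
  have e2 : (z - I * (T : ℂ)).im = z.im - T := by simp
  refine ⟨by rw [e1]; linarith, by rw [e1]; linarith, by rw [e2]; linarith⟩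

/-- few zeros in larger windows -/
lemma FW.wide {a : ℝ} {w : ℂ} (h : FW a w) (δ ε X R : ℝ) (hδ : 0 < δ) (hε : 0 < ε) (hR : 0 ≤ R) :
    ∃ T0 : ℝ, 400 ≤ T0 ∧ ∀ T : ℝ, T0 ≤ T →
    Cnt (sh a w) {u : ℂ | (δ ≤ u.re ∧ u.re ≤ X) ∧ |u.im - T| ≤ R} (ε * Om T) := by
  obtain ⟨J, hJ⟩ : ∃ J : ℕ, J = ⌈R + 1⌉₊ := ⟨_, rfl⟩
  have hJR : R + 1 ≤ J := by rw [hJ]; exact Nat.le_ceil _
  obtain ⟨ε', hε'⟩ : ∃ ε' : ℝ, ε' = ε / (4 * (2 * J + 1)) := ⟨_, rfl⟩
  have hJ0 : (0 : ℝ) ≤ J := Nat.cast_nonneg _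
  have hε0 : 0 < ε' := by rw [hε']; positivity
  obtain ⟨T1, h1⟩ := h δ ε' X hδ hε0
  refine ⟨max T1 400 + 2 * J, by have := le_max_right T1 400; linarith, fun T hT => ?_⟩
  have g1 := le_max_left T1 400
  have g2 := le_max_right T1 400
  have h3 := cnt_cover (F := sh a w) (A := {u : ℂ | δ ≤ u.re ∧ u.re ≤ X}) (y := T) (c := ε' * (2 * Real.log T))
    (R := R) hJR (by
      intro j hj
      have hj1 : |(j : ℝ)| ≤ J := by exact_mod_cast hj
      have hj2 := abs_le.1 hj1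
      refine cnt_mono (h1 (T + j) (by linarith)) (fun z hz => ?_) ?_
      · obtain ⟨⟨h5, h6⟩, h7⟩ := hz
        exact ⟨h5, h6, h7⟩
      · apply mul_le_mul_of_nonneg_left _ hε0.le
        have h8 : Real.log (T + j) ≤ Real.log (T * T) := Real.log_le_log (by linarith) (by nlinarith)
        rw [Real.log_mul (by linarith) (by linarith)] at h8
        linarith)
  refine cnt_mono h3 (fun z hz => hz) (le_of_eq ?_)
  rw [hε']
  unfold Om
  field_simp
  ring

/-- the bounds, from few zeros of two shifted sums -/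
theorem bwd {a : ℝ} {w₁ w₂ : ℂ} (ha : 0 < a) (ha1 : a < 1 / 2) (hw₁ : ‖w₁‖ = 1) (hw₂ : ‖w₂‖ = 1)
    (hne : w₁ ≠ w₂) (hf₁ : FW a w₁) (hf₂ : FW a w₂) : LA a := by
  intro r hr hr1
  refine Ex_of _ _ le_rfl fun ε hε => ?_
  obtain ⟨κ1, R, ℓ0, hκ1, hR, H⟩ := bwd_loc (a := a) (ρ := r - a) (κ := ε) (R1 := 1) ha ha1
    (by linarith) (by linarith) hε le_rfl
  obtain ⟨T1, hT1, hup⟩ := win_up (b := 1) (by norm_num)
    (fun ε R h1 h2 => by
      obtain ⟨T0, hT0, h⟩ := prof (y := 1 / 2) (by norm_num) le_rfl ct_half ε R h1 h2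
      refine ⟨T0, hT0, fun T hT u hu0 hu1 hu2 => (h T hT u hu0 hu1 hu2).trans ?_⟩
      apply mul_le_mul_of_nonneg_right _ (norm_nonneg _)
      apply Real.exp_le_exp.2
      apply mul_le_mul_of_nonneg_left _ (Om_pos (hT0.trans hT)).le
      have : max u.re (1 / 2) ≤ max u.re 1 := max_le_max le_rfl (by norm_num)
      linarith) κ1 R hκ1 (by linarith) (by linarith)
  obtain ⟨T2, hT2, hlo⟩ := win_lo κ1 R hκ1 (by linarith)
  obtain ⟨T3, hT3, hc₁⟩ := hf₁.wide κ1 κ1 R R hκ1 hκ1 (by linarith)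
  obtain ⟨T4, hT4, hc₂⟩ := hf₂.wide κ1 κ1 R R hκ1 hκ1 (by linarith)
  obtain ⟨K, hK, hH⟩ := Pool.Agent.H986R2.K4.hh
  obtain ⟨T5, hT5, hH2⟩ := hH 1 le_rfl
  obtain ⟨T6, hT6, hO⟩ := Om_large (max ℓ0 ((|Real.log (2 / ‖w₂ - w₁‖)| + K) / ε))
  obtain ⟨T7, hT7, hrc⟩ := Pool.Agent.Q27.ZS.right_cmp ha ha1
  refine ⟨max (max (max T1 T2) (max T3 T4)) (max T5 (max T6 T7)), fun T hT => ?_⟩
  have G1 := (le_max_left _ _).trans hT
  have G2 := (le_max_right _ _).trans hT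
  have g1 : T1 ≤ T := ((le_max_left _ _).trans (le_max_left _ _)).trans G1
  have g2 : T2 ≤ T := ((le_max_right _ _).trans (le_max_left _ _)).trans G1
  have g3 : T3 ≤ T := ((le_max_left _ _).trans (le_max_right _ _)).trans G1
  have g4 : T4 ≤ T := ((le_max_right _ _).trans (le_max_right _ _)).trans G1
  have g5 : T5 ≤ T := (le_max_left _ _).trans G2
  have g6 : T6 ≤ T := ((le_max_left _ _).trans (le_max_right _ _)).trans G2
  have g7 : T7 ≤ T := ((le_max_right _ _).trans (le_max_right _ _)).trans G2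
  have hOm := hO T g6
  have hOm1 : ℓ0 ≤ Om T := (le_max_left _ _).trans hOm
  have hOm2 : (|Real.log (2 / ‖w₂ - w₁‖)| + K) / ε ≤ Om T := (le_max_right _ _).trans hOm
  rw [div_le_iff₀ hε] at hOm2
  have hT400 : 400 ≤ T := hT1.trans g1
  have hG := (hrc T 2 g7 (by simp; norm_num) (by simp; norm_num) (by simp)).2.2
  have hcnt : ∀ w : ℂ, ‖w‖ = 1 →
      Cnt (sh a w) {u : ℂ | (κ1 ≤ u.re ∧ u.re ≤ R) ∧ |u.im - T| ≤ R} (κ1 * Om T) →
      Cnt (shf a w (fun u => XX (I * T + u))) {z : ℂ | κ1 ≤ z.re ∧ z.re ≤ R ∧ |z.im| ≤ R} (κ1 * Om T) := by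
    intro w hw hc
    rw [shf_eq]
    refine cnt_tr' (sh_diff a w) (sh_ne ha ha1 w hw) (fun z hz => ?_) hc
    obtain ⟨h1, h2, h3⟩ := hz
    have e1 : (I * (T : ℂ) + z).re = z.re := by simp
    have e2 : (I * (T : ℂ) + z).im - T = z.im := by simp
    exact ⟨⟨by rw [e1]; exact h1, by rw [e1]; exact h2⟩, by rw [e2]; exact h3⟩
  have h1 := H (Om T) ‖HH (I * T)‖ (fun u => XX (I * T + u)) w₁ w₂ hOm1 hG (XX_d.comp (by fun_prop))
    (fun u h1 h2 h3 => hlo T g2 u h1 h2 h3) (fun u h1 h2 => hup T g1 u h1 h2) hw₁ hw₂ hne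
    (hcnt w₁ hw₁ (hc₁ T g3)) (hcnt w₂ hw₂ (hc₂ T g4)) (r : ℂ) (by simp) (by simp; linarith) (by simp)
  obtain ⟨-, b1, -, b3, -⟩ := hH2 T (r : ℂ) g5 (by
    rw [Complex.norm_real, Real.norm_eq_abs, abs_of_pos (by linarith)]; linarith)
  rw [Complex.ofReal_re] at b3 h1
  have him : (I * (T : ℂ) + (r : ℂ)).im = T := by simp
  rw [Pool.Agent.H24R2.JP.zetaS.1 _ (by rw [him]; linarith), norm_mul] at h1
  have e1 : (1 : ℂ) / 2 + (I * T + r) = ((1 / 2 + r : ℝ) : ℂ) + T * I := by push_cast; ring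
  rw [e1] at h1
  have hd : 0 < 2 / ‖w₂ - w₁‖ := div_pos two_pos (norm_pos_iff.2 (sub_ne_zero.2 hne.symm))
  obtain ⟨Z, hZ⟩ : ∃ Z : ℝ, Z = ‖riemannZeta (((1 / 2 + r : ℝ) : ℂ) + T * I)‖ := ⟨_, rfl⟩
  have hZ0 : 0 ≤ Z := by rw [hZ]; exact norm_nonneg _
  rw [← hZ] at h1 ⊢
  have h2 : Real.exp (Om T * r - K * 1) * ‖HH (I * T)‖ * Z ≤
      2 / ‖w₂ - w₁‖ * (‖HH (I * T)‖ * Real.exp (Om T * r + ε * Om T)) :=
    (mul_le_mul_of_nonneg_right b3 hZ0).trans h1
  have h3 : Z ≤ 2 / ‖w₂ - w₁‖ * Real.exp (K + ε * Om T) := by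
    have e3 : Real.exp (Om T * r + ε * Om T) = Real.exp (Om T * r - K * 1) * Real.exp (K + ε * Om T) := by
      rw [← Real.exp_add]
      congr 1
      ring
    rw [e3] at h2
    have h4 : 0 < Real.exp (Om T * r - K * 1) * ‖HH (I * T)‖ := by positivity
    refine le_of_mul_le_mul_left (h2.trans (le_of_eq ?_)) h4
    ring
  have hTε : T ^ (0 + ε) = Real.exp (2 * Om T * ε) := by
    rw [zero_add, Real.rpow_def_of_pos (by linarith)]
    unfold Om
    congr 1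
    ring
  rw [hTε]
  refine h3.trans ?_
  rw [← Real.exp_log hd, ← Real.exp_add]
  apply Real.exp_le_exp.2
  have := le_abs_self (Real.log (2 / ‖w₂ - w₁‖))
  linarith

lemma FWU.fw {a : ℝ} (h : FWU a) {w : ℂ} (hw : ‖w‖ = 1) : FW a w := by
  intro δ ε X hδ hε
  obtain ⟨T0, h0⟩ := h δ ε X hδ hε
  exact ⟨T0, fun T hT => h0 T w hT hw⟩

theorem main {a : ℝ} {w₁ w₂ : ℂ} (ha : 0 < a) (ha1 : a < 1 / 2) (hw₁ : ‖w₁‖ = 1) (hw₂ : ‖w₂‖ = 1)
    (hne : w₁ ≠ w₂) : List.TFAE [LA a, FWU a, FW a w₁ ∧ FW a w₂] := by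
  tfae_have 1 → 2 := fwd ha ha1
  tfae_have 2 → 3 := fun h => ⟨h.fw hw₁, h.fw hw₂⟩
  tfae_have 3 → 1 := fun h => bwd ha ha1 hw₁ hw₂ hne h.1 h.2
  tfae_finish

/-- the Lindelof hypothesis and the bounds to the right -/
lemma lh_la : LHyp ↔ ∀ a : ℝ, 0 < a → a < 1 / 2 → LA a := by
  constructor
  · intro h a ha ha1 r hr hr1
    have h1 := (few_iff (κ := 4 * r) (by linarith)).1 (lh_iff.1 h _ (by linarith)) (1 / 2 + r) (by linarith)
      (by linarith)
    have e : max (4 * r / 4 - (1 / 2 + r - 1 / 2)) 0 ^ 2 / (4 * r) = 0 := by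
      rw [max_eq_right (by linarith)]
      simp
    rwa [e] at h1
  · intro h
    have hr : ∀ r : ℝ, 0 < r → r ≤ 1 / 2 → Ex (1 / 2 + r) 0 := fun r h1 h2 =>
      h (r / 2) (by linarith) (by linarith) r (by linarith) h2
    have h0 : Ex (1 / 2) 0 := by
      refine Ex_of _ _ le_rfl fun ε hε => ?_
      obtain ⟨r, hrd⟩ : ∃ r : ℝ, r = min ε (1 / 2) := ⟨_, rfl⟩
      have hr0 : 0 < r := by rw [hrd]; exact lt_min hε (by norm_num)
      have hr1 : r ≤ ε := by rw [hrd]; exact min_le_left _ _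
      have hr2 : r ≤ 1 / 2 := by rw [hrd]; exact min_le_right _ _
      obtain ⟨C, hz⟩ := hr r hr0 hr2 (r / 4) (by linarith)
      obtain ⟨T0, hT0, h1⟩ := plk r (r / 4) (max C 1) hr0 (by linarith) (by linarith) (by linarith)
        (lt_of_lt_of_le one_pos (le_max_right _ _)) (by
          intro t ht
          have h3 := hz t (by rw [abs_of_nonneg (by linarith)]; linarith)
          rw [abs_of_nonneg (by linarith : 0 ≤ t), zero_add] at h3
          have e : (1 / 2 + ((r : ℝ) : ℂ) + t * I) = ((1 / 2 + r : ℝ) : ℂ) + t * I := by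
            push_cast; ring
          rw [e]
          refine h3.trans ?_
          exact mul_le_mul_of_nonneg_right (le_max_left _ _) (by positivity)) (r / 2) (by linarith)
      refine ⟨T0, fun T hT => ?_⟩
      have hT400 := hT0.trans hT
      have h2 := h1 T hT 0 (by simp; linarith) (by simp)
      rw [add_zero, Pool.Agent.H24R2.JP.zetaS.1 _ (by simp; linarith), norm_mul, mul_comm] at h2
      have hne : HH (I * T) ≠ 0 := by
        apply Pool.Agent.H24R2.JP.StirAux.HH_ne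
        simp
        linarith
      have h3 := le_of_mul_le_mul_right h2 (norm_pos_iff.2 hne)
      have e1 : (1 : ℂ) / 2 + I * T = ((1 / 2 : ℝ) : ℂ) + T * I := by push_cast; ring
      rw [e1] at h3
      refine h3.trans ?_
      rw [zero_add, Real.rpow_def_of_pos (by linarith)]
      apply Real.exp_le_exp.2
      have hO := (Om_pos hT400).le
      have e2 : Real.log T = 2 * Om T := by unfold Om; ring
      rw [e2]
      nlinarith
    refine lh_iff.2 fun κ hκ => (few_iff hκ).2 fun σ h1 h2 => ?_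
    have h3 : Ex σ 0 := by
      rcases eq_or_lt_of_le h1 with h4 | h4
      · rw [← h4]
        exact h0
      · have := hr (σ - 1 / 2) (by linarith) (by linarith)
        rwa [show 1 / 2 + (σ - 1 / 2) = σ by ring] at this
    exact h3.mono (by positivity)

theorem main_lh : LHyp ↔ ∀ a : ℝ, 0 < a → a < 1 / 2 → FW a 1 ∧ FW a (-1) := by
  rw [lh_la]
  refine forall_congr' fun a => forall_congr' fun ha => forall_congr' fun ha1 => ?_
  exact (main (w₁ := 1) (w₂ := -1) ha ha1 norm_one (by rw [norm_neg, norm_one]) (by norm_num)).out 0 2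

end Pool.Agent.Q27.LS
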