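import Pool.Agent.W169.HF.AsmD

/-!
# Shifted sums of completed L-functions and the size of the L-function: the local statements

`f u = ξ(1/2 + i y + u)`, `F u = f (u + a) + w f (u - a)` with `|w| = 1`.
-/

set_option autoImplicit false

open Complex Set MeasureTheory Filter Topology
open scoped ComplexConjugate

namespace Pool.Agent.Q27.SZ

open Pool.Agent.W169.HF

/-- the shifted sum -/
def shf (a : ℝ) (w : ℂ) (f : ℂ → ℂ) (u : ℂ) : ℂ := f (u + (a : ℂ)) + w * f (u - (a : ℂ))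

lemma shf_diff {a : ℝ} {w : ℂ} {f : ℂ → ℂ} (hf : Differentiable ℂ f) : Differentiable ℂ (shf a w f) := by
  unfold shf
  exact (hf.comp (by fun_prop)).add ((hf.comp (by fun_prop)).const_mul w)

/-- a bound on the line `Re u = a + ρ` gives the bound `max |Re u| a` everywhere -/
theorem lin_of {K ϑ0 a κ R1 : ℝ} (hK : 1 ≤ K) (h1 : 1 / 2 ≤ ϑ0) (h2 : ϑ0 ≤ 2) (ha : 0 < a)
    (ha1 : a < 1 / 2) (hκ : 0 < κ) (hR1 : 1 ≤ R1) :
    ∃ ρ : ℝ, 0 < ρ ∧ a + ρ < 1 / 2 ∧ ∃ κ1 R ℓ0 : ℝ, 0 < κ1 ∧ R1 ≤ R ∧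
    ∀ (ℓ G : ℝ) (f : ℂ → ℂ), ℓ0 ≤ ℓ → UD K ϑ0 ℓ G f → Pf κ1 (1 / 2 + ρ) R ℓ G f →
      (∀ u : ℂ, u.re = a + ρ → |u.im| ≤ R → ‖f u‖ ≤ G * Real.exp (ℓ * (a + ρ) + κ1 * ℓ)) →
      ∀ u : ℂ, |u.re| ≤ R1 → |u.im| ≤ R1 → ‖f u‖ ≤ G * Real.exp (ℓ * max |u.re| a + κ * ℓ) := by
  obtain ⟨ρ, hρd⟩ : ∃ ρ : ℝ, ρ = min (κ / 4) ((1 / 2 - a) / 2) := ⟨_, rfl⟩
  have hρ : 0 < ρ := by rw [hρd]; exact lt_min (by positivity) (by linarith)
  have hρκ : ρ ≤ κ / 4 := by rw [hρd]; exact min_le_left _ _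
  have hρa : ρ ≤ (1 / 2 - a) / 2 := by rw [hρd]; exact min_le_right _ _
  obtain ⟨κr, Rr, hκr, hRr, HR⟩ := rect_all 3 (1 / 2 - a) κ R1 (by norm_num) (by linarith) (by linarith) hκ hR1
  obtain ⟨κl, Rl, ℓl, hκl, hRl, HL⟩ := lcx_all K ϑ0 (a + ρ) (κ / 2) R1 hK h1 h2 (by linarith) (by linarith)
    (by positivity) hR1
  obtain ⟨κ1, hκ1d⟩ : ∃ κ1 : ℝ, κ1 = min (min κr κl) (min κ 1) := ⟨_, rfl⟩
  have hκ1 : 0 < κ1 := by rw [hκ1d]; exact lt_min (lt_min hκr hκl) (lt_min hκ one_pos)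
  have hκ1r : κ1 ≤ κr := by rw [hκ1d]; exact (min_le_left _ _).trans (min_le_left _ _)
  have hκ1l : κ1 ≤ κl := by rw [hκ1d]; exact (min_le_left _ _).trans (min_le_right _ _)
  have hκ1κ : κ1 ≤ κ := by rw [hκ1d]; exact (min_le_right _ _).trans (min_le_left _ _)
  have hκ11 : κ1 ≤ 1 := by rw [hκ1d]; exact (min_le_right _ _).trans (min_le_right _ _)
  refine ⟨ρ, hρ, by linarith, κ1, max Rr Rl, max ℓl 0, hκ1, hRr.trans (le_max_left _ _), ?_⟩
  intro ℓ G f hℓ ud pf hline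
  have hℓ0 : 0 ≤ ℓ := (le_max_right _ _).trans hℓ
  have hℓl : ℓl ≤ ℓ := (le_max_left _ _).trans hℓ
  have hG := ud.hG
  have hRR := le_max_left Rr Rl
  have hRL := le_max_right Rr Rl
  have mono : ∀ {x y : ℝ}, x ≤ y → G * Real.exp x ≤ G * Real.exp y := fun h =>
    mul_le_mul_of_nonneg_left (Real.exp_le_exp.2 h) hG.le
  -- nonnegative real parts
  have main : ∀ u : ℂ, 0 ≤ u.re → u.re ≤ R1 → |u.im| ≤ R1 →
      ‖f u‖ ≤ G * Real.exp (ℓ * max u.re a + κ * ℓ) := by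
    intro u hu0 hu1 hu2
    rcases le_total u.re (a + ρ) with hle | hge
    · have h3 := HL ℓ G f hℓl ud (fun v hv1 hv2 => (hline v hv1 (hv2.trans hRL)).trans (mono (by
        have := mul_le_mul_of_nonneg_right hκ1l hℓ0
        linarith))) u (by rw [abs_of_nonneg hu0]; exact hle) hu2
      refine h3.trans (mono ?_)
      have h4 : ℓ * (a + ρ) ≤ ℓ * (max u.re a + κ / 4) :=
        mul_le_mul_of_nonneg_left (by have := le_max_right u.re a; linarith) hℓ0
      have h5 : 0 ≤ κ * ℓ := by positivity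
      nlinarith
    · rcases le_total u.re (1 / 2 + ρ) with hle2 | hge2
      · have h3 := HR ℓ (a + ρ) (a + ρ) (1 / 2 + ρ) G f hℓ0 hG ud.slow.1
          (by rw [abs_of_pos (by linarith)]; linarith) (by rw [abs_of_pos (by linarith)]; linarith)
          (fun v hv1 hv2 => (hline v hv1 (hv2.trans hRR)).trans (mono (by
            have := mul_le_mul_of_nonneg_right hκ1r hℓ0
            linarith)))
          (fun v hv1 hv2 => by
            have hv3 : v.re = 1 / 2 + ρ := by rw [hv1]; ring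
            refine (pf.upp v (by rw [hv3, abs_of_pos (by linarith)]; linarith) (hv2.trans hRR)).trans (mono ?_)
            rw [hv3, abs_of_pos (by linarith), max_self]
            have := mul_le_mul_of_nonneg_right hκ1r hℓ0
            linarith)
          (fun v hv1 hv2 hv3 => by
            have hv4 : |v.re| = v.re := abs_of_nonneg (by linarith)
            refine (pf.upp v (by rw [hv4]; linarith) (by rw [hv3]; exact hRR)).trans (mono ?_)
            rw [hv4]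
            have h6 : max v.re (1 / 2 + ρ) ≤ 1 := max_le (by linarith) (by linarith)
            have h7 : ℓ * max v.re (1 / 2 + ρ) ≤ ℓ * 1 := mul_le_mul_of_nonneg_left h6 hℓ0
            have := mul_le_mul_of_nonneg_right hκ11 hℓ0
            linarith)
          u hge (by linarith) hu2
        refine h3.trans (mono ?_)
        have e : a + ρ + (1 / 2 + ρ - (a + ρ)) * ((u.re - (a + ρ)) / (1 / 2 - a)) = u.re := by
          have h9 : (1 / 2 - a) ≠ 0 := by linarith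
          rw [show (1 / 2 + ρ - (a + ρ)) = 1 / 2 - a by ring, mul_div_cancel₀ _ h9]
          ring
        rw [e]
        have h4 : ℓ * u.re ≤ ℓ * max u.re a := mul_le_mul_of_nonneg_left (le_max_left _ _) hℓ0
        linarith
      · have h3 := pf.upp u (by rw [abs_of_nonneg hu0]; linarith) (by linarith)
        rw [abs_of_nonneg hu0, max_eq_left hge2] at h3
        refine h3.trans (mono ?_)
        have h4 : ℓ * u.re ≤ ℓ * max u.re a := mul_le_mul_of_nonneg_left (le_max_left _ _) hℓ0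
        have := mul_le_mul_of_nonneg_right hκ1κ hℓ0
        linarith
  intro u hu1 hu2
  rcases le_total 0 u.re with h0 | h0
  · rw [abs_of_nonneg h0] at hu1 ⊢
    exact main u h0 hu1 hu2
  · obtain ⟨e, he, hfe⟩ := ud.fe
    have h3 := main (-conj u) (by simpa using h0) (by
      rw [abs_of_nonpos h0] at hu1
      simpa using hu1) (by simpa using hu2)
    have h4 : ‖f u‖ = ‖f (-conj u)‖ := by
      rw [hfe u, norm_mul, he, one_mul, Complex.norm_conj]
    rw [h4]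
    refine h3.trans (le_of_eq ?_)
    rw [abs_of_nonpos h0]
    simp

/-- few zeros of the shifted sum, from the bound -/
theorem fwdS {a δ ε X : ℝ} (ha : 0 < a) (ha1 : a < 1 / 2) (hδ : 0 < δ) (hδ1 : δ ≤ 1) (hε : 0 < ε)
    (hX : 1 ≤ X) :
    ∃ κ R ℓ0 : ℝ, 0 < κ ∧ 3 ≤ R ∧ ∀ (ℓ G : ℝ) (f : ℂ → ℂ) (w : ℂ), ℓ0 ≤ ℓ → 0 < G → Differentiable ℂ f →
      ‖w‖ = 1 →
      (∀ u : ℂ, |u.re| ≤ R → |u.im| ≤ R → ‖f u‖ ≤ G * Real.exp (ℓ * max |u.re| a + κ * ℓ)) →
      (∀ u : ℂ, 1 ≤ u.re → u.re ≤ R → |u.im| ≤ R → G * Real.exp (ℓ * u.re - κ * ℓ) ≤ ‖f u‖) →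
      Cnt (shf a w f) {z : ℂ | δ ≤ z.re ∧ z.re ≤ X ∧ |z.im| ≤ X} (ε * ℓ) := by
  obtain ⟨κj, Rj, hκj, hRj, HJ⟩ := jen_all X δ ε 2 hX hδ hδ1 hε (by norm_num)
  obtain ⟨κ, hκd⟩ : ∃ κ : ℝ, κ = min (κj / 2) (a / 2) := ⟨_, rfl⟩
  have hκ : 0 < κ := by rw [hκd]; exact lt_min (by positivity) (by positivity)
  have hκ1 : κ ≤ κj / 2 := by rw [hκd]; exact min_le_left _ _
  have hκ2 : κ ≤ a / 2 := by rw [hκd]; exact min_le_right _ _
  refine ⟨κ, Rj + 3, max (2 / κj) (1 / a) + 1, hκ, by linarith, ?_⟩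
  intro ℓ G f w hℓ hG hf hw hup hlo
  have hm1 := le_max_left (2 / κj) (1 / a)
  have hm2 := le_max_right (2 / κj) (1 / a)
  have hp1 : 0 < 2 / κj := by positivity
  have hp2 : 0 < 1 / a := by positivity
  have hℓ0 : 0 < ℓ := by linarith
  have hℓκ : 1 ≤ κj / 2 * ℓ := by
    have : 2 / κj ≤ ℓ := by linarith
    rw [div_le_iff₀ hκj] at this
    linarith
  have hℓa : 1 ≤ a * ℓ := by
    have : 1 / a ≤ ℓ := by linarith
    rw [div_le_iff₀ ha] at this
    linarith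
  have h2e : (2 : ℝ) ≤ Real.exp 1 := by
    have := Real.add_one_le_exp (1 : ℝ)
    linarith
  have hb1 : ∀ u : ℂ, (u + (a : ℂ)).re = u.re + a := fun u => by simp
  have hb2 : ∀ u : ℂ, (u - (a : ℂ)).re = u.re - a := fun u => by simp
  have hb3 : ∀ u : ℂ, (u + (a : ℂ)).im = u.im := fun u => by simp
  have hb4 : ∀ u : ℂ, (u - (a : ℂ)).im = u.im := fun u => by simp
  refine HJ ℓ (G * Real.exp (ℓ * a)) (shf a w f) hℓ0 (by positivity) (shf_diff hf) ?_ ?_
  · intro u hu0 hu1 hu2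
    have h1 := hup (u + a) (by rw [hb1, abs_of_nonneg (by linarith)]; linarith) (by rw [hb3]; linarith)
    have h2 := hup (u - a) (by rw [hb2, abs_le]; constructor <;> linarith) (by rw [hb4]; linarith)
    rw [hb1, abs_of_nonneg (by linarith), max_eq_left (by linarith)] at h1
    rw [hb2] at h2
    have h3 : max |u.re - a| a ≤ u.re + a := max_le (abs_le.2 ⟨by linarith, by linarith⟩) (by linarith)
    have h4 : G * Real.exp (ℓ * max |u.re - a| a + κ * ℓ) ≤ G * Real.exp (ℓ * (u.re + a) + κ * ℓ) := by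
      apply mul_le_mul_of_nonneg_left _ hG.le
      apply Real.exp_le_exp.2
      have := mul_le_mul_of_nonneg_left h3 hℓ0.le
      linarith
    calc ‖shf a w f u‖ ≤ ‖f (u + a)‖ + ‖w * f (u - a)‖ := norm_add_le _ _
      _ = ‖f (u + a)‖ + ‖f (u - a)‖ := by rw [norm_mul, hw, one_mul]
      _ ≤ 2 * (G * Real.exp (ℓ * (u.re + a) + κ * ℓ)) := by linarith
      _ ≤ Real.exp 1 * (G * Real.exp (ℓ * (u.re + a) + κ * ℓ)) :=
          mul_le_mul_of_nonneg_right h2e (by positivity)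
      _ = G * Real.exp (ℓ * (u.re + a) + κ * ℓ + 1) := by rw [Real.exp_add _ 1]; ring
      _ ≤ G * Real.exp (ℓ * a + (ℓ * u.re + κj * ℓ)) := by
          apply mul_le_mul_of_nonneg_left _ hG.le
          apply Real.exp_le_exp.2
          have := mul_le_mul_of_nonneg_right hκ1 hℓ0.le
          linarith
      _ = _ := by rw [Real.exp_add (ℓ * a)]; ring
  · intro u hu0 hu1 hu2
    have h1 := hlo (u + a) (by rw [hb1]; linarith) (by rw [hb1]; linarith) (by rw [hb3]; linarith)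
    have h2 := hup (u - a) (by rw [hb2, abs_le]; constructor <;> linarith) (by rw [hb4]; linarith)
    rw [hb1] at h1
    rw [hb2, abs_of_nonneg (by linarith), max_eq_left (by linarith)] at h2
    have h3 : ‖f (u + a)‖ - ‖f (u - a)‖ ≤ ‖shf a w f u‖ := by
      have := norm_sub_le (shf a w f u) (w * f (u - a))
      have e : shf a w f u - w * f (u - a) = f (u + a) := by unfold shf; ring
      rw [e, norm_mul, hw, one_mul] at this
      linarith
    have h4 : 2 * (G * Real.exp (ℓ * (u.re - a) + κ * ℓ)) ≤ G * Real.exp (ℓ * (u.re + a) - κ * ℓ) := by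
      calc 2 * (G * Real.exp (ℓ * (u.re - a) + κ * ℓ)) ≤
          Real.exp 1 * (G * Real.exp (ℓ * (u.re - a) + κ * ℓ)) :=
            mul_le_mul_of_nonneg_right h2e (by positivity)
        _ = G * Real.exp (ℓ * (u.re - a) + κ * ℓ + 1) := by rw [Real.exp_add _ 1]; ring
        _ ≤ _ := by
            apply mul_le_mul_of_nonneg_left _ hG.le
            apply Real.exp_le_exp.2
            have := mul_le_mul_of_nonneg_right hκ2 hℓ0.le
            nlinarith
    have h5 : 2 * (G * Real.exp (ℓ * a) * Real.exp (ℓ * u.re - κj * ℓ)) ≤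
        G * Real.exp (ℓ * (u.re + a) - κ * ℓ) := by
      calc 2 * (G * Real.exp (ℓ * a) * Real.exp (ℓ * u.re - κj * ℓ)) ≤
          Real.exp 1 * (G * Real.exp (ℓ * a) * Real.exp (ℓ * u.re - κj * ℓ)) :=
            mul_le_mul_of_nonneg_right h2e (by positivity)
        _ = G * Real.exp (1 + (ℓ * a + (ℓ * u.re - κj * ℓ))) := by
            rw [Real.exp_add 1, Real.exp_add (ℓ * a)]; ring
        _ ≤ _ := by
            apply mul_le_mul_of_nonneg_left _ hG.le
            apply Real.exp_le_exp.2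
            have := mul_le_mul_of_nonneg_right hκ1 hℓ0.le
            linarith
    linarith

/-- the bound, from few zeros of two shifted sums -/
theorem bwdS {K ϑ0 a ρ κ R1 : ℝ} (hK : 1 ≤ K) (h1 : 1 / 2 ≤ ϑ0) (h2 : ϑ0 ≤ 2) (ha : 0 < a)
    (ha1 : a < 1 / 2) (hρ : 0 < ρ) (hρ1 : ρ ≤ 1) (hκ : 0 < κ) (hR1 : 1 ≤ R1) :
    ∃ κ1 R ℓ0 : ℝ, 0 < κ1 ∧ 3 ≤ R ∧ ∀ (ℓ G : ℝ) (f : ℂ → ℂ) (w₁ w₂ : ℂ), ℓ0 ≤ ℓ → UD K ϑ0 ℓ G f →
      Pf κ1 1 R ℓ G f → ‖w₁‖ = 1 → ‖w₂‖ = 1 → w₁ ≠ w₂ →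
      Cnt (shf a w₁ f) {z : ℂ | κ1 ≤ z.re ∧ z.re ≤ R ∧ |z.im| ≤ R} (κ1 * ℓ) →
      Cnt (shf a w₂ f) {z : ℂ | κ1 ≤ z.re ∧ z.re ≤ R ∧ |z.im| ≤ R} (κ1 * ℓ) →
      ∀ u : ℂ, a + ρ ≤ u.re → u.re ≤ R1 → |u.im| ≤ R1 →
        ‖f u‖ ≤ 2 / ‖w₂ - w₁‖ * (G * Real.exp (ℓ * u.re + κ * ℓ)) := by
  obtain ⟨κt, Rt, hκt, hRt, HT⟩ := tcz_all 3 2 ρ κ R1 (by norm_num) (by norm_num) (by norm_num) hρ hρ1 hκ hR1
  obtain ⟨κ1, hκ1d⟩ : ∃ κ1 : ℝ, κ1 = min (κt / 2) (a / 2) := ⟨_, rfl⟩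
  have hκ1 : 0 < κ1 := by rw [hκ1d]; exact lt_min (by positivity) (by positivity)
  have hκ1t : κ1 ≤ κt / 2 := by rw [hκ1d]; exact min_le_left _ _
  have hκ1a : κ1 ≤ a / 2 := by rw [hκ1d]; exact min_le_right _ _
  have hRt0 : 0 < Rt := by linarith
  refine ⟨κ1, Rt + 3, max (2 / κt) (1 / a) + K * (1 + 2 * (Rt + 1) ^ 2) + 1, hκ1, by linarith, ?_⟩
  intro ℓ G f w₁ w₂ hℓ ud pf hw₁ hw₂ hne hc₁ hc₂
  have hm1 := le_max_left (2 / κt) (1 / a)
  have hm2 := le_max_right (2 / κt) (1 / a)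
  have hp1 : 0 < 2 / κt := by positivity
  have hp2 : 0 < 1 / a := by positivity
  have hKR : 0 ≤ K * (1 + 2 * (Rt + 1) ^ 2) := by positivity
  have hℓ0 : 0 < ℓ := by linarith
  have hℓκ : 1 ≤ κt / 2 * ℓ := by
    have : 2 / κt ≤ ℓ := by linarith
    rw [div_le_iff₀ hκt] at this
    linarith
  have hℓa : 1 ≤ a * ℓ := by
    have : 1 / a ≤ ℓ := by linarith
    rw [div_le_iff₀ ha] at this
    linarith
  have h2e : (2 : ℝ) ≤ Real.exp 1 := by
    have := Real.add_one_le_exp (1 : ℝ)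
    linarith
  have hG := ud.hG
  have hb1 : ∀ u : ℂ, (u + (a : ℂ)).re = u.re + a := fun u => by simp
  have hb2 : ∀ u : ℂ, (u - (a : ℂ)).re = u.re - a := fun u => by simp
  have hb3 : ∀ u : ℂ, (u + (a : ℂ)).im = u.im := fun u => by simp
  have hb4 : ∀ u : ℂ, (u - (a : ℂ)).im = u.im := fun u => by simp
  have key : ∀ w : ℂ, ‖w‖ = 1 →
      Cnt (shf a w f) {z : ℂ | κ1 ≤ z.re ∧ z.re ≤ Rt + 3 ∧ |z.im| ≤ Rt + 3} (κ1 * ℓ) →
      ∀ u : ℂ, ρ ≤ u.re → u.re ≤ R1 → |u.im| ≤ R1 →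
        ‖shf a w f u‖ ≤ G * Real.exp (ℓ * a) * Real.exp (ℓ * u.re + κ * ℓ) := by
    intro w hw hc
    have hnorm : ∀ u : ℂ, ‖shf a w f u‖ ≤ ‖f (u + a)‖ + ‖f (u - a)‖ := fun u => by
      calc ‖shf a w f u‖ ≤ ‖f (u + a)‖ + ‖w * f (u - a)‖ := norm_add_le _ _
        _ = ‖f (u + a)‖ + ‖f (u - a)‖ := by rw [norm_mul, hw, one_mul]
    refine HT ℓ (G * Real.exp (ℓ * a)) (shf a w f) hℓ0 (by positivity) (shf_diff ud.slow.1) ?_ ?_ ?_
    · intro u hu0 hu1 hu2
      have h3 := ud.up (u + a)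
      have h4 := ud.up (u - a)
      rw [hb1] at h3
      rw [hb2] at h4
      have h5 : max |u.re + a| ϑ0 ≤ u.re + a + 2 :=
        max_le (abs_le.2 ⟨by linarith, by linarith⟩) (by linarith)
      have h6 : max |u.re - a| ϑ0 ≤ u.re + a + 2 :=
        max_le (abs_le.2 ⟨by linarith, by linarith⟩) (by linarith)
      have hn : ∀ v : ℂ, |v.re| ≤ Rt + 1 → |v.im| ≤ Rt + 1 → K * (1 + ‖v‖ ^ 2) ≤ K * (1 + 2 * (Rt + 1) ^ 2) := by
        intro v hv1 hv2
        apply mul_le_mul_of_nonneg_left _ (by linarith)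
        have e : ‖v‖ ^ 2 = v.re ^ 2 + v.im ^ 2 := by
          rw [← Complex.normSq_eq_norm_sq, Complex.normSq_apply]
          ring
        have h7 := sq_le_sq' (abs_le.1 hv1).1 (abs_le.1 hv1).2
        have h8 := sq_le_sq' (abs_le.1 hv2).1 (abs_le.1 hv2).2
        rw [e]
        linarith
      have h7 := hn (u + a) (by rw [hb1, abs_le]; constructor <;> linarith) (by rw [hb3]; linarith)
      have h8 := hn (u - a) (by rw [hb2, abs_le]; constructor <;> linarith) (by rw [hb4]; linarith)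
      have h9 : ‖f (u + a)‖ ≤ G * Real.exp (ℓ * (u.re + a + 2) + K * (1 + 2 * (Rt + 1) ^ 2)) := by
        refine h3.trans (mul_le_mul_of_nonneg_left (Real.exp_le_exp.2 ?_) hG.le)
        have := mul_le_mul_of_nonneg_left h5 hℓ0.le
        linarith
      have h10 : ‖f (u - a)‖ ≤ G * Real.exp (ℓ * (u.re + a + 2) + K * (1 + 2 * (Rt + 1) ^ 2)) := by
        refine h4.trans (mul_le_mul_of_nonneg_left (Real.exp_le_exp.2 ?_) hG.le)
        have := mul_le_mul_of_nonneg_left h6 hℓ0.le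
        linarith
      calc ‖shf a w f u‖ ≤ ‖f (u + a)‖ + ‖f (u - a)‖ := hnorm u
        _ ≤ 2 * (G * Real.exp (ℓ * (u.re + a + 2) + K * (1 + 2 * (Rt + 1) ^ 2))) := by linarith
        _ ≤ Real.exp 1 * (G * Real.exp (ℓ * (u.re + a + 2) + K * (1 + 2 * (Rt + 1) ^ 2))) :=
            mul_le_mul_of_nonneg_right h2e (by positivity)
        _ = G * Real.exp (1 + (ℓ * (u.re + a + 2) + K * (1 + 2 * (Rt + 1) ^ 2))) := by
            rw [Real.exp_add 1]; ring
        _ ≤ G * Real.exp (ℓ * a + (ℓ * u.re + 3 * ℓ)) := by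
            apply mul_le_mul_of_nonneg_left _ hG.le
            apply Real.exp_le_exp.2
            linarith
        _ = _ := by rw [Real.exp_add (ℓ * a)]; ring
    · intro u hu0 hu1 hu2
      have h3 := pf.low (u + a) (by rw [hb1]; linarith) (by rw [hb1]; linarith) (by rw [hb3]; linarith)
      have h4 := pf.upp (u + a) (by rw [hb1, abs_le]; constructor <;> linarith) (by rw [hb3]; linarith)
      have h5 := pf.upp (u - a) (by rw [hb2, abs_le]; constructor <;> linarith) (by rw [hb4]; linarith)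
      rw [hb1] at h3
      rw [hb1, abs_of_nonneg (by linarith), max_eq_left (by linarith)] at h4
      rw [hb2, abs_of_nonneg (by linarith), max_eq_left (by linarith)] at h5
      constructor
      · have h6 : ‖f (u + a)‖ - ‖f (u - a)‖ ≤ ‖shf a w f u‖ := by
          have := norm_sub_le (shf a w f u) (w * f (u - a))
          have e : shf a w f u - w * f (u - a) = f (u + a) := by unfold shf; ring
          rw [e, norm_mul, hw, one_mul] at this
          linarith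
        have h7 : 2 * (G * Real.exp (ℓ * (u.re - a) + κ1 * ℓ)) ≤ G * Real.exp (ℓ * (u.re + a) - κ1 * ℓ) := by
          calc 2 * (G * Real.exp (ℓ * (u.re - a) + κ1 * ℓ)) ≤
              Real.exp 1 * (G * Real.exp (ℓ * (u.re - a) + κ1 * ℓ)) :=
                mul_le_mul_of_nonneg_right h2e (by positivity)
            _ = G * Real.exp (ℓ * (u.re - a) + κ1 * ℓ + 1) := by rw [Real.exp_add _ 1]; ring
            _ ≤ _ := by
                apply mul_le_mul_of_nonneg_left _ hG.le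
                apply Real.exp_le_exp.2
                have := mul_le_mul_of_nonneg_right hκ1a hℓ0.le
                nlinarith
        have h8 : 2 * (G * Real.exp (ℓ * a) * Real.exp (ℓ * u.re - κt * ℓ)) ≤
            G * Real.exp (ℓ * (u.re + a) - κ1 * ℓ) := by
          calc 2 * (G * Real.exp (ℓ * a) * Real.exp (ℓ * u.re - κt * ℓ)) ≤
              Real.exp 1 * (G * Real.exp (ℓ * a) * Real.exp (ℓ * u.re - κt * ℓ)) :=
                mul_le_mul_of_nonneg_right h2e (by positivity)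
            _ = G * Real.exp (1 + (ℓ * a + (ℓ * u.re - κt * ℓ))) := by
                rw [Real.exp_add 1, Real.exp_add (ℓ * a)]; ring
            _ ≤ _ := by
                apply mul_le_mul_of_nonneg_left _ hG.le
                apply Real.exp_le_exp.2
                have := mul_le_mul_of_nonneg_right hκ1t hℓ0.le
                linarith
        linarith
      · have h6 : G * Real.exp (ℓ * (u.re - a) + κ1 * ℓ) ≤ G * Real.exp (ℓ * (u.re + a) + κ1 * ℓ) := by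
          apply mul_le_mul_of_nonneg_left _ hG.le
          apply Real.exp_le_exp.2
          nlinarith
        calc ‖shf a w f u‖ ≤ ‖f (u + a)‖ + ‖f (u - a)‖ := hnorm u
          _ ≤ 2 * (G * Real.exp (ℓ * (u.re + a) + κ1 * ℓ)) := by linarith
          _ ≤ Real.exp 1 * (G * Real.exp (ℓ * (u.re + a) + κ1 * ℓ)) :=
              mul_le_mul_of_nonneg_right h2e (by positivity)
          _ = G * Real.exp (ℓ * (u.re + a) + κ1 * ℓ + 1) := by rw [Real.exp_add _ 1]; ring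
          _ ≤ G * Real.exp (ℓ * a + (ℓ * u.re + κt * ℓ)) := by
              apply mul_le_mul_of_nonneg_left _ hG.le
              apply Real.exp_le_exp.2
              have := mul_le_mul_of_nonneg_right hκ1t hℓ0.le
              linarith
          _ = _ := by rw [Real.exp_add (ℓ * a)]; ring
    · refine cnt_mono hc (fun z hz => ?_) ?_
      · obtain ⟨hz1, hz2, hz3⟩ := hz
        exact ⟨by linarith, by linarith, by linarith⟩
      · have := mul_le_mul_of_nonneg_right hκ1t hℓ0.le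
        have h3 : 0 ≤ κt * ℓ := by positivity
        linarith
  intro u hu0 hu1 hu2
  have k1 := key w₁ hw₁ hc₁ (u - a) (by rw [hb2]; linarith) (by rw [hb2]; linarith) (by rw [hb4]; exact hu2)
  have k2 := key w₂ hw₂ hc₂ (u - a) (by rw [hb2]; linarith) (by rw [hb2]; linarith) (by rw [hb4]; exact hu2)
  have hd : 0 < ‖w₂ - w₁‖ := norm_pos_iff.2 (sub_ne_zero.2 hne.symm)
  have e : (w₂ - w₁) * f u = w₂ * shf a w₁ f (u - a) - w₁ * shf a w₂ f (u - a) := by
    unfold shf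
    rw [sub_add_cancel]
    ring
  have e2 : G * Real.exp (ℓ * a) * Real.exp (ℓ * (u - (a : ℂ)).re + κ * ℓ) = G * Real.exp (ℓ * u.re + κ * ℓ) := by
    rw [hb2, mul_assoc, ← Real.exp_add]
    congr 2
    ring
  rw [e2] at k1 k2
  have h3 : ‖w₂ - w₁‖ * ‖f u‖ ≤ 2 * (G * Real.exp (ℓ * u.re + κ * ℓ)) := by
    rw [← norm_mul, e]
    refine (norm_sub_le _ _).trans ?_
    rw [norm_mul, norm_mul, hw₁, hw₂, one_mul, one_mul]
    linarith
  rw [div_mul_eq_mul_div, le_div_iff₀ hd]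
  linarith

end Pool.Agent.Q27.SZ
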