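import Pool.Agent.Q27.SZ1

/-!
# Shifted sums of completed L-functions and the size of the L-function: automorphic data
-/

set_option autoImplicit false

open Complex Set MeasureTheory Filter Topology
open scoped ComplexConjugate

namespace Pool.Agent.Q27.SZ

open Pool.Agent.W169.HF
open H353.E H353.F

lemma Pf_th {κ b b' R ℓ G : ℝ} {f : ℂ → ℂ} (h : Pf κ b R ℓ G f) (hb : b ≤ b') (hℓ : 0 ≤ ℓ) (hG : 0 < G) :
    Pf κ b' R ℓ G f := by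
  refine ⟨fun u a c d => h.low u (hb.trans a) c d, fun u a c => (h.upp u a c).trans ?_,
    fun u a c d => h.der u (hb.trans a) c d⟩
  apply mul_le_mul_of_nonneg_left _ hG.le
  apply Real.exp_le_exp.2
  have := mul_le_mul_of_nonneg_left (max_le_max_left |u.re| hb) hℓ
  linarith

/-- the shifted sum is not identically zero -/
lemma shf_ne {κ R ℓ G a : ℝ} {f : ℂ → ℂ} {w : ℂ} (h : Pf κ 1 R ℓ G f) (hG : 0 < G) (hℓ : 0 < ℓ)
    (ha : 0 < a) (ha1 : a < 1 / 2) (hκ : κ ≤ a / 2) (hR : 3 ≤ R) (hw : ‖w‖ = 1) : shf a w f 2 ≠ 0 := by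
  intro h0
  have h1 := h.low (2 + (a : ℂ)) (by simp; linarith) (by simp; linarith) (by simp; linarith)
  have h2 := h.upp (2 - (a : ℂ)) (by
    rw [abs_le]; constructor <;> simp <;> linarith) (by simp; linarith)
  have e1 : (2 + (a : ℂ)).re = 2 + a := by simp
  have e2 : (2 - (a : ℂ)).re = 2 - a := by simp
  rw [e1] at h1
  rw [e2, abs_of_pos (by linarith), max_eq_left (by linarith)] at h2
  have h3 : f (2 + (a : ℂ)) = -(w * f (2 - (a : ℂ))) := eq_neg_of_add_eq_zero_left h0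
  have h4 : ‖f (2 + (a : ℂ))‖ = ‖f (2 - (a : ℂ))‖ := by rw [h3, norm_neg, norm_mul, hw, one_mul]
  rw [h4] at h1
  have h5 := h1.trans h2
  have h6 := le_of_mul_le_mul_left h5 hG
  rw [Real.exp_le_exp] at h6
  nlinarith

/-- the local situation at the height `y` -/
structure Sit {m : ℕ} (K N : ℝ) (μ : Fin m → ℂ) (Λ : ℂ → ℂ) (y ℓ G : ℝ) : Prop where
  hℓ : ℓ = (gaD N μ (3 / 2 + y * I)).re
  hG : G = ‖gaf N μ (3 / 2 + y * I)‖ * Real.exp (-ℓ)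
  ud : UD K (3 / 2) ℓ G (fun u : ℂ => XX N Λ (1 / 2 + (y : ℂ) * I + u))
  lo : Real.log (cnd N μ y) ≤ 2 * ℓ + 14 * m
  up : ℓ ≤ 1 / 2 * Real.log (cnd N μ y) + 5 * m
  nz : (∀ s : ℂ, 1 < s.re → Λ s ≠ 0) → ∀ u : ℂ, 1 / 2 < u.re → XX N Λ (1 / 2 + (y : ℂ) * I + u) ≠ 0
  dif : Differentiable ℂ (XX N Λ)

theorem setup (m : ℕ) (hm : 1 ≤ m) : ∃ K : ℝ, 1 ≤ K ∧ ∀ (N : ℝ) (μ : Fin m → ℂ) (α : Fin m → ℕ → ℂ) (e : ℂ)
    (Λ : ℂ → ℂ), DatumT (1 / 2) N μ α e Λ → ∀ y : ℝ, ∃ ℓ G : ℝ, Sit K N μ Λ y ℓ G := by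
  have hm' : (1 : ℝ) ≤ m := by exact_mod_cast hm
  obtain ⟨B, hB, HS⟩ := sharpX m hm (show (0 : ℝ) ≤ 1 / 2 by norm_num) le_rfl
    (show (0 : ℝ) < 1 / 2 by norm_num) (by norm_num)
  have hlogB : 0 ≤ Real.log B := Real.log_nonneg hB
  refine ⟨Real.log B + 20 * (6 * m), by linarith, ?_⟩
  intro N μ α e Λ d y
  obtain ⟨S, hslow, hfe, hzer, hne⟩ := HS N μ α e Λ d
  have hN1 := d.one_le
  have hN0 : (N : ℂ) ≠ 0 := by
    have : (0 : ℝ) < N := by linarith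
    exact_mod_cast this.ne'
  have hlo := gaD_re_ge d.one_le d.re_le y
  have hup := gaD_re_le d.one_le d.re_le y
  change 1 / 2 * Real.log (cnd N μ y) - 7 * m ≤ _ at hlo
  change _ ≤ 1 / 2 * Real.log (cnd N μ y) + 5 * m at hup
  have ud := ud_of_sharp S hslow (by norm_num) y
  have e0 : (1 + 1 / 2 + 1 / 2 - 1 / 2 : ℝ) = 3 / 2 := by norm_num
  rw [e0] at ud
  refine ⟨_, _, rfl, rfl, ud, by linarith, hup, fun hnz u hu h => ?_, hslow.1⟩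
  unfold XX at h
  rcases mul_eq_zero.1 h with h | h
  · exact absurd (Complex.cpow_eq_zero_iff _ _ |>.1 h).1 hN0
  · exact hnz _ (by simp; linarith) h

/-- from the finite L-function to the completed one on a line -/
lemma line_conv {m : ℕ} (hm : 1 ≤ m) {K N : ℝ} {μ : Fin m → ℂ} {Λ : ℂ → ℂ} {y ℓ G : ℝ} (hN : 1 ≤ N)
    (hμ : ∀ j, (μ j).re ≤ 1 / 2) (S : Sit K N μ Λ y ℓ G) {r R κ1 : ℝ} (hr : 0 < r) (hr1 : r ≤ 1)
    (hκ1 : 0 < κ1)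
    (hℓ : 14 * m * κ1 + (226 * m + 25 * m / r) * (2 + R ^ 2) ≤ κ1 / 2 * ℓ) {v : ℝ} (hv : |v| ≤ R)
    (h : ‖LL μ Λ (1 / 2 + (r : ℂ) + ((y + v : ℝ) : ℂ) * I)‖ ≤ Real.exp (κ1 / 4 * Real.log (cnd N μ y)))
    {u : ℂ} (hu : u = (r : ℂ) + v * I) :
    ‖XX N Λ (1 / 2 + (y : ℂ) * I + u)‖ ≤ G * Real.exp (ℓ * r + κ1 * ℓ) := by
  have hm' : (1 : ℝ) ≤ m := by exact_mod_cast hm
  have hNpos : 0 < N := by linarith
  have hure : u.re = r := by rw [hu]; simp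
  have huim : u.im = v := by rw [hu]; simp
  have e1 : (1 / 2 + (r : ℂ) + ((y + v : ℝ) : ℂ) * I : ℂ) = 1 / 2 + (y : ℂ) * I + u := by
    rw [hu]; push_cast; ring
  rw [e1, LL_eq hNpos] at h
  obtain ⟨h7, h8⟩ := gam_up hm hN hμ y hr hr1 (u := u) (by rw [hure])
  rw [← S.hℓ, ← S.hG, hure] at h8
  have hG : 0 < G := S.ud.hG
  have h9 : ‖XX N Λ (1 / 2 + (y : ℂ) * I + u)‖ =
      ‖XX N Λ (1 / 2 + (y : ℂ) * I + u) * (gaf N μ (1 / 2 + (y : ℂ) * I + u))⁻¹‖ *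
      ‖gaf N μ (1 / 2 + (y : ℂ) * I + u)‖ := by
    rw [← norm_mul, mul_assoc, inv_mul_cancel₀ h7, mul_one]
  rw [h9]
  have hnu : 1 + ‖u‖ ^ 2 ≤ 2 + R ^ 2 := by
    have := nsq (u := u) (a := 1) (b := R) (by rw [hure, abs_of_pos (by linarith)]; exact hr1)
      (by rw [huim]; exact hv)
    linarith
  calc _ ≤ Real.exp (κ1 / 4 * Real.log (cnd N μ y)) *
        (G * Real.exp (ℓ * r + (226 * m + 25 * m / r) * (1 + ‖u‖ ^ 2))) :=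
          mul_le_mul h h8 (norm_nonneg _) (Real.exp_pos _).le
    _ = G * Real.exp (κ1 / 4 * Real.log (cnd N μ y) +
        (ℓ * r + (226 * m + 25 * m / r) * (1 + ‖u‖ ^ 2))) := by
          rw [Real.exp_add (κ1 / 4 * Real.log (cnd N μ y))]; ring
    _ ≤ _ := by
          apply mul_le_mul_of_nonneg_left _ hG.le
          apply Real.exp_le_exp.2
          have h10 : κ1 / 4 * Real.log (cnd N μ y) ≤ κ1 / 4 * (2 * ℓ + 14 * m) :=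
            mul_le_mul_of_nonneg_left S.lo (by positivity)
          have h11 : (226 * m + 25 * m / r) * (1 + ‖u‖ ^ 2) ≤ (226 * m + 25 * m / r) * (2 + R ^ 2) :=
            mul_le_mul_of_nonneg_left hnu (by positivity)
          have h12 : 0 ≤ m * κ1 := by positivity
          nlinarith

lemma shf_shift {a : ℝ} {w c : ℂ} {f : ℂ → ℂ} : shf a w (fun u => f (c + u)) = fun u => shf a w f (c + u) := by
  funext u
  simp only [shf]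
  rw [← add_assoc, ← add_sub_assoc]

/-- from bounds on a line to few zeros -/
theorem aut_fewS (m : ℕ) (hm : 1 ≤ m) {a δ ε X : ℝ} (ha : 0 < a) (ha1 : a < 1 / 2) (hδ : 0 < δ)
    (hδ1 : δ ≤ 1) (hε : 0 < ε) (hX : 1 ≤ X) :
    ∃ ρ R κ' C0 : ℝ, 0 < ρ ∧ a + ρ < 1 / 2 ∧ 0 < κ' ∧ ∀ (N : ℝ) (μ : Fin m → ℂ) (α : Fin m → ℕ → ℂ) (e : ℂ)
    (Λ : ℂ → ℂ), DatumT (1 / 2) N μ α e Λ → (∀ s : ℂ, 1 < s.re → Λ s ≠ 0) → ∀ (y : ℝ) (w : ℂ), ‖w‖ = 1 →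
      C0 ≤ cnd N μ y →
      (∀ v : ℝ, |v| ≤ R → ‖LL μ Λ (1 / 2 + ((a + ρ : ℝ) : ℂ) + ((y + v : ℝ) : ℂ) * I)‖ ≤
        Real.exp (κ' * Real.log (cnd N μ y))) →
      Cnt (shf a w (XX N Λ)) {z : ℂ | 1 / 2 + δ ≤ z.re ∧ z.re ≤ 1 / 2 + X ∧ |z.im - y| ≤ 1}
        (ε * Real.log (cnd N μ y)) := by
  have hm' : (1 : ℝ) ≤ m := by exact_mod_cast hm
  obtain ⟨K, hK, HS⟩ := setup m hm
  obtain ⟨κf, Rf, ℓf, hκf, hRf, HF⟩ := fwdS ha ha1 hδ hδ1 hε hX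
  obtain ⟨κ0, hκ0d⟩ : ∃ κ0 : ℝ, κ0 = min κf (a / 2) := ⟨_, rfl⟩
  have hκ0 : 0 < κ0 := by rw [hκ0d]; exact lt_min hκf (by positivity)
  have hκ0f : κ0 ≤ κf := by rw [hκ0d]; exact min_le_left _ _
  have hκ0a : κ0 ≤ a / 2 := by rw [hκ0d]; exact min_le_right _ _
  obtain ⟨ρ, hρ, hρa, κ1, R1, ℓ1, hκ1, hR1, HL⟩ := lin_of (K := K) (ϑ0 := 3 / 2) (κ := κ0) (R1 := Rf) hK
    (by norm_num) (by norm_num) ha ha1 hκ0 (by linarith)
  obtain ⟨κ2, hκ2d⟩ : ∃ κ2 : ℝ, κ2 = min κ1 κ0 := ⟨_, rfl⟩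
  have hκ2 : 0 < κ2 := by rw [hκ2d]; exact lt_min hκ1 hκ0
  have hκ21 : κ2 ≤ κ1 := by rw [hκ2d]; exact min_le_left _ _
  have hκ20 : κ2 ≤ κ0 := by rw [hκ2d]; exact min_le_right _ _
  obtain ⟨Rp, ℓp, hRp, HP⟩ := prof_all K (3 / 2) (1 / 2) ρ κ2 R1 hK (by norm_num) (by norm_num)
    (by norm_num) (by norm_num) hρ (by linarith) hκ2 (by linarith)
  obtain ⟨c1, hc1⟩ : ∃ c1 : ℝ, c1 = (14 * m * κ1 + (226 * m + 25 * m / (a + ρ)) * (2 + R1 ^ 2)) / (κ1 / 2) :=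
    ⟨_, rfl⟩
  have hc10 : 0 ≤ c1 := by rw [hc1]; positivity
  obtain ⟨W, hW⟩ : ∃ W : ℝ, W = |ℓf| + |ℓ1| + |ℓp| + 1 + c1 := ⟨_, rfl⟩
  refine ⟨ρ, R1, κ1 / 4, Real.exp (2 * W + 14 * m), hρ, hρa, by positivity, ?_⟩
  intro N μ α e Λ d hnz y w hw hC hline
  obtain ⟨ℓ, G, S⟩ := HS N μ α e Λ d y
  have hL : 2 * W + 14 * m ≤ Real.log (cnd N μ y) := by
    have := Real.log_le_log (Real.exp_pos _) hC
    rwa [Real.log_exp] at this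
  have hlo := S.lo
  have hup := S.up
  have ha1' := le_abs_self ℓf
  have ha2' := le_abs_self ℓ1
  have ha3' := le_abs_self ℓp
  have hb1 := abs_nonneg ℓf
  have hb2 := abs_nonneg ℓ1
  have hb3 := abs_nonneg ℓp
  have hWℓ : W ≤ ℓ := by linarith
  have hℓ0 : 0 < ℓ := by linarith
  have hGpos := S.ud.hG
  have pf := HP ℓ G _ (by linarith) S.ud (fun u hu1 _ => S.nz hnz u hu1)
  have pf1 := Pf_mono' pf hκ21 le_rfl hℓ0.le hGpos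
  have pf2 := Pf_th (Pf_mono' pf hκ20 hR1 hℓ0.le hGpos) (b' := 1) (by linarith) hℓ0.le hGpos
  have hlin := HL ℓ G _ (by linarith) S.ud pf1 (fun u hu1 hu2 => by
    have hu : u = (((a + ρ : ℝ)) : ℂ) + (u.im : ℂ) * I := by
      apply Complex.ext
      · simp [hu1]
      · simp
    have hcc : 14 * m * κ1 + (226 * m + 25 * m / (a + ρ)) * (2 + R1 ^ 2) ≤ κ1 / 2 * ℓ := by
      have : c1 ≤ ℓ := by linarith
      rw [hc1, div_le_iff₀ (by positivity)] at this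
      linarith
    exact line_conv hm d.one_le d.re_le S (r := a + ρ) (R := R1) (by linarith) (by linarith) hκ1 hcc hu2
      (hline u.im hu2) hu)
  have key := HF ℓ G _ w (by linarith) hGpos S.ud.slow.1 hw
    (fun u hu1 hu2 => by
      refine (hlin u hu1 hu2).trans ?_
      apply mul_le_mul_of_nonneg_left _ hGpos.le
      apply Real.exp_le_exp.2
      have := mul_le_mul_of_nonneg_right hκ0f hℓ0.le
      linarith)
    (fun u hu1 hu2 hu3 => by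
      refine le_trans ?_ (pf2.low u hu1 hu2 hu3)
      apply mul_le_mul_of_nonneg_left _ hGpos.le
      apply Real.exp_le_exp.2
      have := mul_le_mul_of_nonneg_right hκ0f hℓ0.le
      linarith)
  have hne0 := shf_ne (w := w) pf2 hGpos hℓ0 ha ha1 hκ0a hRf hw
  rw [shf_shift] at key hne0
  refine cnt_mono (cnt_shift (shf_diff S.dif) ⟨_, hne0⟩ (1 / 2 + (y : ℂ) * I) key (fun z hz _ => ?_))
    subset_rfl ?_
  · obtain ⟨hz1, hz2, hz3⟩ := hz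
    have e1 : (z - (1 / 2 + (y : ℂ) * I)).re = z.re - 1 / 2 := by simp
    have e2 : (z - (1 / 2 + (y : ℂ) * I)).im = z.im - y := by simp
    simp only [mem_setOf_eq, e1, e2]
    exact ⟨by linarith, by linarith, by linarith⟩
  · apply mul_le_mul_of_nonneg_left _ hε.le
    linarith

/-- from few zeros of two shifted sums to bounds -/
theorem aut_expS (m : ℕ) (hm : 1 ≤ m) {a ρ ε : ℝ} {w₁ w₂ : ℂ} (ha : 0 < a) (ha1 : a < 1 / 2) (hρ : 0 < ρ)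
    (hρ1 : a + ρ ≤ 1 / 2) (hε : 0 < ε) (hw₁ : ‖w₁‖ = 1) (hw₂ : ‖w₂‖ = 1) (hne : w₁ ≠ w₂) :
    ∃ κ1 R C0 B : ℝ, 0 < κ1 ∧ ∀ (N : ℝ) (μ : Fin m → ℂ) (α : Fin m → ℕ → ℂ) (e : ℂ)
    (Λ : ℂ → ℂ), DatumT (1 / 2) N μ α e Λ → (∀ s : ℂ, 1 < s.re → Λ s ≠ 0) → ∀ y : ℝ, C0 ≤ cnd N μ y →
      Cnt (shf a w₁ (XX N Λ)) {z : ℂ | (1 / 2 + κ1 ≤ z.re ∧ z.re ≤ 1 / 2 + R) ∧ |z.im - y| ≤ R}
        (κ1 * Real.log (cnd N μ y)) →
      Cnt (shf a w₂ (XX N Λ)) {z : ℂ | (1 / 2 + κ1 ≤ z.re ∧ z.re ≤ 1 / 2 + R) ∧ |z.im - y| ≤ R}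
        (κ1 * Real.log (cnd N μ y)) →
      ‖LL μ Λ (1 / 2 + ((a + ρ : ℝ) : ℂ) + (y : ℂ) * I)‖ ≤ Real.exp (B + ε * Real.log (cnd N μ y)) := by
  have hm' : (1 : ℝ) ≤ m := by exact_mod_cast hm
  obtain ⟨K, hK, HS⟩ := setup m hm
  obtain ⟨κb, Rb, ℓb, hκb, hRb, HB⟩ := bwdS (K := K) (ϑ0 := 3 / 2) (ρ := ρ) (κ := ε) (R1 := 1) hK
    (by norm_num) (by norm_num) ha ha1 hρ (by linarith) hε le_rfl
  obtain ⟨κ0, hκ0d⟩ : ∃ κ0 : ℝ, κ0 = min κb (a / 2) := ⟨_, rfl⟩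
  have hκ0 : 0 < κ0 := by rw [hκ0d]; exact lt_min hκb (by positivity)
  have hκ0f : κ0 ≤ κb := by rw [hκ0d]; exact min_le_left _ _
  have hκ0a : κ0 ≤ a / 2 := by rw [hκ0d]; exact min_le_right _ _
  obtain ⟨Rp, ℓp, hRp, HP⟩ := prof_all K (3 / 2) (1 / 2) (1 / 2) κ0 Rb hK (by norm_num) (by norm_num)
    (by norm_num) (by norm_num) (by norm_num) (by norm_num) hκ0 (by linarith)
  obtain ⟨D, hD⟩ : ∃ D : ℝ, D = Real.log (2 / ‖w₂ - w₁‖) := ⟨_, rfl⟩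
  have hd : 0 < ‖w₂ - w₁‖ := norm_pos_iff.2 (sub_ne_zero.2 hne.symm)
  obtain ⟨W, hW⟩ : ∃ W : ℝ, W = |ℓb| + |ℓp| + 1 := ⟨_, rfl⟩
  refine ⟨κb / 4, Rb, Real.exp (2 * W + 28 * m), 462 * m + D + 5 * m * ε, by positivity, ?_⟩
  intro N μ α e Λ d hnz y hC hc₁ hc₂
  obtain ⟨ℓ, G, S⟩ := HS N μ α e Λ d y
  obtain ⟨L, hLd⟩ : ∃ L : ℝ, L = Real.log (cnd N μ y) := ⟨_, rfl⟩
  have hL : 2 * W + 28 * m ≤ L := by
    have := Real.log_le_log (Real.exp_pos _) hC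
    rwa [Real.log_exp, ← hLd] at this
  have hlo := S.lo
  have hup := S.up
  rw [← hLd] at hlo hup hc₁ hc₂ ⊢
  have ha1' := le_abs_self ℓb
  have ha2' := le_abs_self ℓp
  have hb1 := abs_nonneg ℓb
  have hb2 := abs_nonneg ℓp
  have hWℓ : W ≤ ℓ := by linarith
  have hℓ0 : 0 < ℓ := by linarith
  have hGpos := S.ud.hG
  have pf := HP ℓ G _ (by linarith) S.ud (fun u hu1 _ => S.nz hnz u hu1)
  rw [show (1 / 2 + 1 / 2 : ℝ) = 1 by norm_num] at pf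
  have pf2 := Pf_mono' pf hκ0f le_rfl hℓ0.le hGpos
  obtain ⟨f, hf⟩ : ∃ f : ℂ → ℂ, f = fun u : ℂ => XX N Λ (1 / 2 + (y : ℂ) * I + u) := ⟨_, rfl⟩
  have hud := S.ud
  rw [← hf] at pf pf2 hud
  have hcnt : ∀ w : ℂ, ‖w‖ = 1 →
      Cnt (shf a w (XX N Λ)) {z : ℂ | (1 / 2 + κb / 4 ≤ z.re ∧ z.re ≤ 1 / 2 + Rb) ∧ |z.im - y| ≤ Rb}
        (κb / 4 * L) →
      Cnt (shf a w f) {z : ℂ | κb ≤ z.re ∧ z.re ≤ Rb ∧ |z.im| ≤ Rb} (κb * ℓ) := by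
    intro w hw hc
    have hne0 := shf_ne (w := w) pf hGpos hℓ0 ha ha1 hκ0a hRb hw
    have h6 : Cnt (fun u => shf a w f (-(1 / 2 + (y : ℂ) * I) + u))
        {z : ℂ | (1 / 2 + κb / 4 ≤ z.re ∧ z.re ≤ 1 / 2 + Rb) ∧ |z.im - y| ≤ Rb} (κb / 4 * L) := by
      have : (fun u => shf a w f (-(1 / 2 + (y : ℂ) * I) + u)) = shf a w (XX N Λ) := by
        rw [hf, shf_shift]
        funext u
        show shf a w (XX N Λ) (1 / 2 + (y : ℂ) * I + (-(1 / 2 + (y : ℂ) * I) + u)) = _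
        rw [add_neg_cancel_left]
      rw [this]
      exact hc
    refine cnt_mono (cnt_shift (shf_diff hud.slow.1) ⟨_, hne0⟩ (-(1 / 2 + (y : ℂ) * I)) h6
      (fun z hz _ => ?_)) subset_rfl ?_
    · obtain ⟨hz1, hz2, hz3⟩ := hz
      have e1 : (z - -(1 / 2 + (y : ℂ) * I)).re = z.re + 1 / 2 := by simp
      have e2 : (z - -(1 / 2 + (y : ℂ) * I)).im = z.im + y := by simp
      simp only [mem_setOf_eq, e1, e2, add_sub_cancel_right]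
      exact ⟨⟨by linarith, by linarith⟩, hz3⟩
    · have h7 : L ≤ 4 * ℓ := by linarith
      have h8 : κb / 4 * L ≤ κb / 4 * (4 * ℓ) := mul_le_mul_of_nonneg_left h7 (by positivity)
      linarith
  have hb := HB ℓ G f w₁ w₂ (by linarith) hud pf2 hw₁ hw₂ hne (hcnt w₁ hw₁ hc₁) (hcnt w₂ hw₂ hc₂)
    (((a + ρ : ℝ)) : ℂ) (by simp) (by simp; linarith) (by simp)
  have hfr : ‖XX N Λ (1 / 2 + (y : ℂ) * I + ((a + ρ : ℝ) : ℂ))‖ ≤
      (‖gaf N μ (3 / 2 + y * I)‖ * Real.exp (-(gaD N μ (3 / 2 + y * I)).re)) *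
      Real.exp (D + (ℓ * (a + ρ) + ε * ℓ)) := by
    rw [← S.hℓ, ← S.hG, Real.exp_add D, hD, Real.exp_log (by positivity)]
    rw [hf, ofReal_re] at hb
    refine hb.trans (le_of_eq ?_)
    ring
  have h6 := LL_le_r hm d.one_le d.re_le Λ y (by linarith) (by linarith) hfr
  rw [← S.hℓ] at h6
  refine h6.trans (Real.exp_le_exp.2 ?_)
  have h7 : ε * ℓ ≤ ε * (1 / 2 * L + 5 * m) := mul_le_mul_of_nonneg_left hup hε.le
  have h8 : 0 ≤ ε * L := mul_nonneg hε.le (by linarith)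
  linarith

/-- from a line to the critical line -/
theorem aut_cen (m : ℕ) (hm : 1 ≤ m) {r ε : ℝ} (hr : 0 < r) (hr1 : r ≤ 1 / 2) (hε : 0 < ε) :
    ∃ R κ' C0 B : ℝ, 0 < κ' ∧ ∀ (N : ℝ) (μ : Fin m → ℂ) (α : Fin m → ℕ → ℂ) (e : ℂ)
    (Λ : ℂ → ℂ), DatumT (1 / 2) N μ α e Λ → ∀ y : ℝ, C0 ≤ cnd N μ y →
      (∀ v : ℝ, |v| ≤ R → ‖LL μ Λ (1 / 2 + (r : ℂ) + ((y + v : ℝ) : ℂ) * I)‖ ≤
        Real.exp (κ' * Real.log (cnd N μ y))) →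
      ‖LL μ Λ (1 / 2 + (y : ℂ) * I)‖ ≤ Real.exp (B + (r / 2 + ε) * Real.log (cnd N μ y)) := by
  have hm' : (1 : ℝ) ≤ m := by exact_mod_cast hm
  obtain ⟨K, hK, HS⟩ := setup m hm
  obtain ⟨κ1, R1, ℓ1, hκ1, hR1, HL⟩ := lcx_all K (3 / 2) r ε 1 hK (by norm_num) (by norm_num) hr
    (by linarith) hε le_rfl
  obtain ⟨c1, hc1⟩ : ∃ c1 : ℝ, c1 = (14 * m * κ1 + (226 * m + 25 * m / r) * (2 + R1 ^ 2)) / (κ1 / 2) :=
    ⟨_, rfl⟩
  have hc10 : 0 ≤ c1 := by rw [hc1]; positivity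
  obtain ⟨W, hW⟩ : ∃ W : ℝ, W = |ℓ1| + 1 + c1 := ⟨_, rfl⟩
  refine ⟨R1, κ1 / 4, Real.exp (2 * W + 14 * m), 231 * m + (r + ε) * (5 * m), by positivity, ?_⟩
  intro N μ α e Λ d y hC hline
  obtain ⟨ℓ, G, S⟩ := HS N μ α e Λ d y
  have hL : 2 * W + 14 * m ≤ Real.log (cnd N μ y) := by
    have := Real.log_le_log (Real.exp_pos _) hC
    rwa [Real.log_exp] at this
  have hlo := S.lo
  have hup := S.up
  have ha2' := le_abs_self ℓ1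
  have hb2 := abs_nonneg ℓ1
  have hWℓ : W ≤ ℓ := by linarith
  have hℓ0 : 0 < ℓ := by linarith
  have hGpos := S.ud.hG
  have h0 := HL ℓ G _ (by linarith) S.ud (fun u hu1 hu2 => by
    have hu : u = (r : ℂ) + (u.im : ℂ) * I := by
      apply Complex.ext
      · simp [hu1]
      · simp
    have hcc : 14 * m * κ1 + (226 * m + 25 * m / r) * (2 + R1 ^ 2) ≤ κ1 / 2 * ℓ := by
      have : c1 ≤ ℓ := by linarith
      rw [hc1, div_le_iff₀ (by positivity)] at this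
      linarith
    exact line_conv hm d.one_le d.re_le S (r := r) (R := R1) hr (by linarith) hκ1 hcc hu2
      (hline u.im hu2) hu) 0 (by simp [hr.le]) (by simp)
  have hfr : ‖XX N Λ (1 / 2 + (y : ℂ) * I + 0)‖ ≤
      (‖gaf N μ (3 / 2 + y * I)‖ * Real.exp (-(gaD N μ (3 / 2 + y * I)).re)) *
      Real.exp (ℓ * r + ε * ℓ) := by
    rw [← S.hℓ, ← S.hG]
    exact h0
  have h6 := LL_le hm d.one_le d.re_le Λ y hfr
  refine h6.trans ?_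
  rw [← Real.exp_add]
  apply Real.exp_le_exp.2
  have h7 : (r + ε) * ℓ ≤ (r + ε) * (1 / 2 * Real.log (cnd N μ y) + 5 * m) :=
    mul_le_mul_of_nonneg_left hup (by linarith)
  have h8 : 0 ≤ ε * Real.log (cnd N μ y) := mul_nonneg hε.le (by
    have : 0 ≤ W := by rw [hW]; positivity
    have : (0 : ℝ) ≤ 14 * m := by positivity
    linarith)
  nlinarith

end Pool.Agent.Q27.SZ
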