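import Pool.Agent.Q27.SZ2
import Pool.Agent.W169.HF.Fam4

/-!
# Shifted sums of completed L-functions and the size of the L-function: classes of L-functions
-/

set_option autoImplicit false

open Complex Set MeasureTheory Filter Topology
open scoped ComplexConjugate

namespace Pool.Agent.Q27.SZ

open Pool.Agent.W169.HF
open H353.E H353.F

/-- few zeros of the shifted sums with the factors in `A` -/
def FS {m : ℕ} (P : Cls m) (a : ℝ) (A : Set ℂ) : Prop := ∀ δ ε X : ℝ, 0 < δ → 0 < ε → ∃ C0 : ℝ,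
  ∀ (N : ℝ) (μ : Fin m → ℂ) (α : Fin m → ℕ → ℂ) (e : ℂ) (Λ : ℂ → ℂ), P N μ α e Λ → Std N μ α e Λ →
  ∀ w ∈ A, ∀ y : ℝ, C0 ≤ cnd N μ y →
    Cnt (shf a w (XX N Λ)) {z : ℂ | (1 / 2 + δ ≤ z.re ∧ z.re ≤ X) ∧ |z.im - y| ≤ 1}
      (ε * Real.log (cnd N μ y))

variable {m : ℕ} {P : Cls m}

/-- bounds in a family on a line, for large conductor, at all heights near `y` -/
lemma line_large {r κ' R : ℝ} (h : SEr P r 0) (hκ' : 0 < κ') : ∃ C0 : ℝ,
    ∀ (N : ℝ) (μ : Fin m → ℂ) (α : Fin m → ℕ → ℂ) (e : ℂ) (Λ : ℂ → ℂ), P N μ α e Λ → Std N μ α e Λ →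
    ∀ y : ℝ, C0 ≤ cnd N μ y → ∀ v : ℝ, |v| ≤ R →
      ‖LL μ Λ (1 / 2 + (r : ℂ) + ((y + v : ℝ) : ℂ) * I)‖ ≤ Real.exp (κ' * Real.log (cnd N μ y)) := by
  obtain ⟨B, HB⟩ := h (κ' / 2) (by positivity)
  obtain ⟨rr, hrr⟩ : ∃ rr : ℝ, rr = m * Real.log (1 + |R|) := ⟨_, rfl⟩
  have hrr0 : 0 ≤ rr := by
    rw [hrr]
    exact mul_nonneg (Nat.cast_nonneg m) (Real.log_nonneg (by linarith [abs_nonneg R]))
  refine ⟨Real.exp (2 * (|B| + κ' / 2 * rr) / κ'), ?_⟩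
  intro N μ α e Λ hP hS y hC v hv
  have hL := lt_log hC
  rw [div_le_iff₀ hκ'] at hL
  refine (HB N μ α e Λ hP hS (y + v)).trans (Real.exp_le_exp.2 ?_)
  have h5 := logm_shift hS.1.one_le μ (y := y + v) (y' := y) (R := R) (by
    rw [show y - (y + v) = -v by ring, abs_neg]
    exact hv.trans (le_abs_self R))
  rw [← hrr] at h5
  have h6 : (0 + κ' / 2) * Real.log (cnd N μ (y + v)) ≤ (0 + κ' / 2) * (Real.log (cnd N μ y) + rr) :=
    mul_le_mul_of_nonneg_left h5 (by positivity)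
  have h7 := le_abs_self B
  linarith

theorem ser_fs (hm : 1 ≤ m) {a : ℝ} (ha : 0 < a) (ha1 : a < 1 / 2)
    (h : ∀ r : ℝ, a < r → r ≤ 1 / 2 → SEr P r 0) : FS P a {w : ℂ | ‖w‖ = 1} := by
  intro δ ε X hδ hε
  have hδ' : 0 < min δ 1 := lt_min hδ one_pos
  obtain ⟨ρ, R, κ', C0, hρ, hρa, hκ', H⟩ := aut_fewS m hm (X := max X 1) ha ha1 hδ' (min_le_right _ _) hε
    (le_max_right _ _)
  obtain ⟨C1, H1⟩ := line_large (R := R) (h (a + ρ) (by linarith) hρa.le) hκ'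
  refine ⟨max C0 C1, ?_⟩
  intro N μ α e Λ hP hS w hw y hC
  refine cnt_mono (H N μ α e Λ hS.1 hS.2 y w hw ((le_max_left _ _).trans hC)
    (H1 N μ α e Λ hP hS y ((le_max_right _ _).trans hC))) (fun z hz => ?_) le_rfl
  obtain ⟨⟨h1, h2⟩, h3⟩ := hz
  have h5 := min_le_left δ 1
  have h6 := le_max_left X 1
  exact ⟨by linarith, by linarith, h3⟩

/-- covering a window by unit windows -/
lemma cnt_cover' {F : ℂ → ℂ} {A : Set ℂ} {y c R : ℝ} {J : ℕ} (hRJ : R + 1 ≤ J)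
    (h : ∀ j : ℤ, |j| ≤ J → Cnt F {z : ℂ | z ∈ A ∧ |z.im - (y + j)| ≤ 1} c) :
    Cnt F {z : ℂ | z ∈ A ∧ |z.im - y| ≤ R} ((2 * J + 1) * c) := by
  classical
  intro S hS
  have hmap : ∀ z ∈ S, round (z.im - y) ∈ Finset.Icc (-(J : ℤ)) J := by
    intro z hz
    have h1 := (hS z hz).2.2
    have h2 := abs_sub_round (z.im - y)
    rw [Finset.mem_Icc, ← abs_le]
    have h3 : |((round (z.im - y) : ℤ) : ℝ)| ≤ J := by
      have h4 : |((round (z.im - y) : ℤ) : ℝ)| ≤ |z.im - y| + 1 / 2 := by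
        have h9 := abs_sub_abs_le_abs_sub ((round (z.im - y) : ℤ) : ℝ) (z.im - y)
        rw [abs_sub_comm ((round (z.im - y) : ℤ) : ℝ) (z.im - y)] at h9
        linarith
      linarith
    exact_mod_cast h3
  rw [← Finset.sum_fiberwise_of_maps_to hmap]
  have h5 : ∀ j ∈ Finset.Icc (-(J : ℤ)) J,
      ∑ z ∈ S.filter (fun z => round (z.im - y) = j), (analyticOrderNatAt F z : ℝ) ≤ c := by
    intro j hj
    rw [Finset.mem_Icc, ← abs_le] at hj
    refine h j hj _ fun z hz => ?_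
    rw [Finset.mem_filter] at hz
    obtain ⟨h6, h7⟩ := hS z hz.1
    refine ⟨h6, h7.1, ?_⟩
    have h8 := abs_sub_round (z.im - y)
    rw [hz.2] at h8
    rw [show z.im - (y + j) = z.im - y - j by ring]
    linarith
  refine (Finset.sum_le_sum h5).trans ?_
  rw [Finset.sum_const, Int.card_Icc, nsmul_eq_mul]
  have e : ((((J : ℤ) + 1 - -(J : ℤ)).toNat : ℕ) : ℝ) = 2 * J + 1 := by
    have : ((J : ℤ) + 1 - -(J : ℤ)).toNat = 2 * J + 1 := by omega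
    rw [this]
    push_cast
    ring
  rw [e]

theorem fs_ser (hm : 1 ≤ m) {a : ℝ} {w₁ w₂ : ℂ} (ha : 0 < a) (ha1 : a < 1 / 2) (hw₁ : ‖w₁‖ = 1)
    (hw₂ : ‖w₂‖ = 1) (hne : w₁ ≠ w₂) (hF : FS P a {w₁, w₂}) (r : ℝ) (hr : a < r) (hr1 : r ≤ 1 / 2) :
    SEr P r 0 := by
  intro ε hε
  obtain ⟨ρ, hρd⟩ : ∃ ρ : ℝ, ρ = r - a := ⟨_, rfl⟩
  have hρ : 0 < ρ := by linarith
  have hr' : r = a + ρ := by linarith
  obtain ⟨κ1, R, C1, B1, hκ1, HZ⟩ := aut_expS m hm ha ha1 hρ (by linarith) hε hw₁ hw₂ hne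
  obtain ⟨J, hJ⟩ := exists_nat_ge (|R| + 1)
  have hJ0 : (0 : ℝ) ≤ J := Nat.cast_nonneg J
  obtain ⟨C2, HH⟩ := hF κ1 (κ1 / (2 * (2 * J + 1))) (1 / 2 + R) hκ1 (by positivity)
  obtain ⟨B2, HT⟩ := aut_triv_r m hm
  obtain ⟨rr, hrr⟩ : ∃ rr : ℝ, rr = m * Real.log (1 + |(J : ℝ)|) := ⟨_, rfl⟩
  have hrr0 : 0 ≤ rr := by
    rw [hrr]
    exact mul_nonneg (Nat.cast_nonneg m) (Real.log_nonneg (by linarith [abs_nonneg (J : ℝ)]))
  obtain ⟨W, hW⟩ : ∃ W : ℝ, W = max (max C1 (|C2| * (1 + |(J : ℝ)|) ^ m)) (Real.exp rr) := ⟨_, rfl⟩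
  refine ⟨max B1 (B2 + 3 / 4 * Real.log W), ?_⟩
  intro N μ α e Λ hP hS y
  have hN := hS.1.one_le
  have hc := cnd_pos hN μ y
  have hL0 : 0 ≤ Real.log (cnd N μ y) := Real.log_nonneg hc
  rcases le_total (cnd N μ y) W with hsm | hbig
  · refine (HT N μ α e Λ hS.1 y r (by linarith) hr1).trans (Real.exp_le_exp.2 ?_)
    have h3 : Real.log (cnd N μ y) ≤ Real.log W := Real.log_le_log (by linarith) hsm
    have h4 := le_max_right B1 (B2 + 3 / 4 * Real.log W)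
    have h5 : 0 ≤ (0 + ε) * Real.log (cnd N μ y) := by positivity
    linarith
  · have hCa : C1 ≤ cnd N μ y := ((le_max_left _ _).trans ((le_max_left _ _).trans hW.ge)).trans hbig
    have hCb : |C2| * (1 + |(J : ℝ)|) ^ m ≤ cnd N μ y :=
      ((le_max_right _ _).trans ((le_max_left _ _).trans hW.ge)).trans hbig
    have hL := lt_log (((le_max_right _ _).trans hW.ge).trans hbig)
    obtain ⟨L, hLd⟩ : ∃ L : ℝ, L = Real.log (cnd N μ y) := ⟨_, rfl⟩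
    rw [← hLd] at hL hL0 ⊢
    have hcov : ∀ w : ℂ, w = w₁ ∨ w = w₂ → Cnt (shf a w (XX N Λ))
        {z : ℂ | (1 / 2 + κ1 ≤ z.re ∧ z.re ≤ 1 / 2 + R) ∧ |z.im - y| ≤ R} (κ1 * L) := by
      intro w hw
      have h9 : ∀ j : ℤ, |j| ≤ J → Cnt (shf a w (XX N Λ))
          {z : ℂ | z ∈ {z : ℂ | 1 / 2 + κ1 ≤ z.re ∧ z.re ≤ 1 / 2 + R} ∧ |z.im - (y + j)| ≤ 1}
            (κ1 / (2 * (2 * J + 1)) * (2 * L)) := by
        intro j hj
        have hj' : |(j : ℝ)| ≤ J := by exact_mod_cast hj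
        have hj2 : |(y + j) - y| ≤ |(J : ℝ)| := by
          rw [add_sub_cancel_left]
          exact hj'.trans (le_abs_self _)
        have h3 := cndm_shift (N := N) (by linarith) μ hj2
        rw [abs_sub_comm] at hj2
        have h7 := logm_shift hN μ hj2
        rw [← hrr, ← hLd] at h7
        have h5 : 0 < (1 + |(J : ℝ)|) ^ m := by positivity
        have h10 := HH N μ α e Λ hP hS w (by
          rcases hw with rfl | rfl
          · exact Or.inl rfl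
          · exact Or.inr rfl) (y + j) ((le_abs_self C2).trans
          (le_of_mul_le_mul_right (hCb.trans h3) h5))
        refine cnt_mono h10 (fun z hz => ⟨hz.1, hz.2⟩) ?_
        apply mul_le_mul_of_nonneg_left _ (by positivity)
        linarith
      refine cnt_mono (cnt_cover' (A := {z : ℂ | 1 / 2 + κ1 ≤ z.re ∧ z.re ≤ 1 / 2 + R}) (J := J) (R := R)
        (by linarith [le_abs_self R]) h9) (fun z hz => ⟨hz.1, hz.2⟩) (le_of_eq ?_)
      field_simp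
    have key := HZ N μ α e Λ hS.1 hS.2 y hCa (by rw [← hLd]; exact hcov w₁ (Or.inl rfl))
      (by rw [← hLd]; exact hcov w₂ (Or.inr rfl))
    rw [← hr', ← hLd] at key
    refine key.trans (Real.exp_le_exp.2 ?_)
    have h4 := le_max_left B1 (B2 + 3 / 4 * Real.log W)
    linarith

/-- bounds on all lines to the right give the bound on the critical line -/
theorem ser_se (hm : 1 ≤ m) (h : ∀ r : ℝ, 0 < r → r ≤ 1 / 2 → SEr P r 0) : SE P 0 := by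
  intro ε hε
  obtain ⟨r, hrd⟩ : ∃ r : ℝ, r = min ε (1 / 2) := ⟨_, rfl⟩
  have hr : 0 < r := by rw [hrd]; exact lt_min hε (by norm_num)
  have hrε : r ≤ ε := by rw [hrd]; exact min_le_left _ _
  have hr1 : r ≤ 1 / 2 := by rw [hrd]; exact min_le_right _ _
  obtain ⟨R, κ', C0, B1, hκ', H⟩ := aut_cen m hm hr hr1 (show 0 < ε / 2 by positivity)
  obtain ⟨C1, H1⟩ := line_large (R := R) (h r hr hr1) hκ'
  obtain ⟨B2, HT⟩ := aut_triv m hm
  obtain ⟨W, hW⟩ : ∃ W : ℝ, W = max C0 C1 := ⟨_, rfl⟩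
  refine ⟨max B1 (B2 + 3 / 4 * Real.log W), ?_⟩
  intro N μ α e Λ hP hS y
  have hN := hS.1.one_le
  have hc := cnd_pos hN μ y
  have hL0 : 0 ≤ Real.log (cnd N μ y) := Real.log_nonneg hc
  have h5 : 0 ≤ (0 + ε) * Real.log (cnd N μ y) := by positivity
  rcases le_total (cnd N μ y) W with hsm | hbig
  · refine (HT N μ α e Λ hS.1 y).trans (Real.exp_le_exp.2 ?_)
    have h3 : Real.log (cnd N μ y) ≤ Real.log W := Real.log_le_log (by linarith) hsm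
    have h4 := le_max_right B1 (B2 + 3 / 4 * Real.log W)
    linarith
  · refine (H N μ α e Λ hS.1 y (((le_max_left _ _).trans hW.ge).trans hbig)
      (H1 N μ α e Λ hP hS y (((le_max_right _ _).trans hW.ge).trans hbig))).trans (Real.exp_le_exp.2 ?_)
    have h4 := le_max_left B1 (B2 + 3 / 4 * Real.log W)
    have h6 : (r / 2 + ε / 2) * Real.log (cnd N μ y) ≤ (0 + ε) * Real.log (cnd N μ y) :=
      mul_le_mul_of_nonneg_right (by linarith) hL0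
    linarith

theorem main {a : ℝ} {w₁ w₂ : ℂ} (hm : 1 ≤ m) (ha : 0 < a) (ha1 : a < 1 / 2) (hw₁ : ‖w₁‖ = 1)
    (hw₂ : ‖w₂‖ = 1) (hne : w₁ ≠ w₂) :
    List.TFAE [∀ r : ℝ, a < r → r ≤ 1 / 2 → SEr P r 0, FS P a {w : ℂ | ‖w‖ = 1}, FS P a {w₁, w₂}] := by
  tfae_have 1 → 2 := ser_fs hm ha ha1
  tfae_have 2 → 3 := by
    intro h δ ε X hδ hε
    obtain ⟨C0, H⟩ := h δ ε X hδ hε
    refine ⟨C0, fun N μ α e Λ hP hS w hw => H N μ α e Λ hP hS w ?_⟩
    rcases hw with rfl | rfl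
    · exact hw₁
    · exact hw₂
  tfae_have 3 → 1 := fs_ser hm ha ha1 hw₁ hw₂ hne
  tfae_finish

theorem main_glh (hm : 1 ≤ m) : SE P 0 ↔ ∀ a : ℝ, 0 < a → a < 1 / 2 → FS P a {1, -1} := by
  have h1 : ‖(1 : ℂ)‖ = 1 := norm_one
  have h2 : ‖(-1 : ℂ)‖ = 1 := by rw [norm_neg, norm_one]
  have h3 : (1 : ℂ) ≠ -1 := by norm_num
  constructor
  · intro h a ha ha1
    exact ((main hm ha ha1 h1 h2 h3).out 0 2).1 fun r hr hr1 => se_ser hm h r (by linarith) hr1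
  · intro h
    refine ser_se hm fun r hr hr1 => ?_
    have h5 : (∀ r' : ℝ, r / 2 < r' → r' ≤ 1 / 2 → SEr P r' 0) ↔ FS P (r / 2) {1, -1} :=
      (main hm (a := r / 2) (by linarith) (by linarith) h1 h2 h3).out 0 2
    exact h5.2 (h (r / 2) (by linarith) (by linarith)) r (by linarith) hr1

end Pool.Agent.Q27.SZ
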