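import Pool.Agent.W186.HZ.Fwd
import Pool.Agent.H296R2.LE.Basic

/-!
# Two functions without zeros which are close to each other on a small disc
-/

set_option autoImplicit false

namespace Pool.Agent.Q27.ZS

open Complex Filter Topology Metric
open Pool.Agent.W186.HZ (exlog)

lemma small_seq (C c0 θ ε : ℝ) (hC : 1 ≤ C) (hc0 : 0 < c0) (hθ0 : 0 < θ) (hθ1 : θ < 1) (hε : 0 < ε) :
    ∃ L0 : ℝ, 1 ≤ L0 ∧ ∀ L : ℝ, L0 ≤ L → Real.exp (-(c0 * L)) ≤ 1 / 2 ∧
      (6 * Real.exp (-(c0 * L))) ^ (1 - θ) * (C * L) ^ θ ≤ ε := by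
  have hc' : 0 < c0 * (1 - θ) := mul_pos hc0 (by linarith)
  have h1 : Tendsto (fun L : ℝ => L ^ (1 : ℝ) * Real.exp (-(c0 * (1 - θ)) * L)) atTop (𝓝 0) :=
    tendsto_rpow_mul_exp_neg_mul_atTop_nhds_zero 1 _ hc'
  have h2 : Tendsto (fun L : ℝ => L ^ (0 : ℝ) * Real.exp (-c0 * L)) atTop (𝓝 0) :=
    tendsto_rpow_mul_exp_neg_mul_atTop_nhds_zero 0 _ hc0
  have h3 := h1.eventually (gt_mem_nhds (show 0 < ε / (6 * C) by positivity))
  have h4 := h2.eventually (gt_mem_nhds (show (0 : ℝ) < 1 / 2 by norm_num))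
  obtain ⟨L0, hL0⟩ := Filter.eventually_atTop.1 (h3.and h4)
  refine ⟨max L0 1, le_max_right _ _, fun L hL => ?_⟩
  obtain ⟨h5, h6⟩ := hL0 L ((le_max_left _ _).trans hL)
  have hL1 : 1 ≤ L := (le_max_right _ _).trans hL
  rw [Real.rpow_zero, one_mul, neg_mul] at h6
  rw [Real.rpow_one] at h5
  refine ⟨h6.le, ?_⟩
  have h7 : (6 * Real.exp (-(c0 * L))) ^ (1 - θ) ≤ 6 * Real.exp (-(c0 * (1 - θ)) * L) := by
    rw [Real.mul_rpow (by norm_num) (Real.exp_pos _).le, ← Real.exp_mul]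
    have e : -(c0 * L) * (1 - θ) = -(c0 * (1 - θ)) * L := by ring
    rw [e]
    refine mul_le_mul_of_nonneg_right ?_ (Real.exp_pos _).le
    calc (6 : ℝ) ^ (1 - θ) ≤ 6 ^ (1 : ℝ) := Real.rpow_le_rpow_of_exponent_le (by norm_num) (by linarith)
      _ = 6 := Real.rpow_one _
  have hCL : 1 ≤ C * L := by nlinarith
  have h8 : (C * L) ^ θ ≤ C * L := by
    calc (C * L) ^ θ ≤ (C * L) ^ (1 : ℝ) := Real.rpow_le_rpow_of_exponent_le hCL hθ1.le
      _ = C * L := Real.rpow_one _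
  have h9 : 0 ≤ (C * L) ^ θ := Real.rpow_nonneg (by linarith) _
  calc (6 * Real.exp (-(c0 * L))) ^ (1 - θ) * (C * L) ^ θ
      ≤ (6 * Real.exp (-(c0 * (1 - θ)) * L)) * (C * L) :=
        mul_le_mul h7 h8 h9 (by positivity)
    _ = (6 * C) * (L * Real.exp (-(c0 * (1 - θ)) * L)) := by ring
    _ ≤ (6 * C) * (ε / (6 * C)) := mul_le_mul_of_nonneg_left h5.le (by positivity)
    _ = ε := by field_simp

/-- the logarithm of a function without zeros, normalised and bounded -/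
lemma log_bd {g : ℂ → ℂ} {p : ℂ} {R R1 M B : ℝ} (hR1 : 0 < R1) (hR : R1 < R) (hM : 0 < M)
    (hg : ∀ z ∈ ball p R, DifferentiableAt ℂ g z ∧ g z ≠ 0 ∧ ‖g z‖ ≤ B)
    (hp : B ≤ Real.exp M * ‖g p‖) :
    ∃ f : ℂ → ℂ, DifferentiableOn ℂ f (ball 0 R) ∧ f 0 = 0 ∧
      (∀ z ∈ ball (0 : ℂ) R, g (p + z) = g p * cexp (f z)) ∧
      ∀ z ∈ ball (0 : ℂ) R1, ‖f z‖ ≤ 2 * M * R1 / (R - R1) := by
  have hR0 : 0 < R := hR1.trans hR
  have hmem : ∀ z ∈ ball (0 : ℂ) R, p + z ∈ ball p R := by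
    intro z hz
    rw [mem_ball_iff_norm, add_sub_cancel_left]
    simpa using hz
  have hgp : g p ≠ 0 := (hg p (mem_ball_self hR0)).2.1
  obtain ⟨f, hf, hf0, hfk⟩ := exlog (k := fun z => g (p + z) / g p) hR0
    (fun z hz => by
      have h1 := (hg _ (hmem z hz)).1
      apply DifferentiableAt.differentiableWithinAt
      exact (DifferentiableAt.comp z (by simpa using h1) (differentiableAt_id.const_add p)).div_const _)
    (fun z hz => div_ne_zero (hg _ (hmem z hz)).2.1 hgp) (by simp [hgp])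
  refine ⟨f, hf, hf0, fun z hz => ?_, fun z hz => ?_⟩
  · have h1 : g (p + z) / g p = cexp (f z) := hfk z hz
    rw [← h1]
    field_simp
  · have hre : ∀ w ∈ ball (0 : ℂ) R, (f w).re ≤ M := by
      intro w hw
      have h1 : g (p + w) / g p = cexp (f w) := hfk w hw
      have h2 : ‖g (p + w) / g p‖ ≤ Real.exp M := by
        rw [norm_div, div_le_iff₀ (norm_pos_iff.2 hgp)]
        exact ((hg _ (hmem w hw)).2.2).trans hp
      rw [h1, Complex.norm_exp] at h2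
      exact Real.exp_le_exp.1 h2
    have hzR : z ∈ ball (0 : ℂ) R := ball_subset_ball hR.le hz
    have hbc := borelCaratheodory_zero hM hf (fun w hw => hre w hw) hR0 hzR hf0
    rw [mem_ball_zero_iff] at hz
    refine hbc.trans ?_
    rw [div_le_div_iff₀ (by linarith) (by linarith)]
    have h3 := norm_nonneg z
    nlinarith [mul_pos hM hR0]

/-- Two functions without zeros in a disc, of moderate size, which are exponentially close on a
smaller disc, are close to each other on all slightly smaller discs. -/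
theorem quo {K0 c0 ρ R ε : ℝ} (hρ : 1 / 2 < ρ) (hR : ρ < R) (hK0 : 0 < K0) (hc0 : 0 < c0) (hε : 0 < ε) :
    ∃ L0 : ℝ, 1 ≤ L0 ∧ ∀ (L G : ℝ) (g1 g2 : ℂ → ℂ) (p : ℂ), L0 ≤ L → 0 < G →
      (∀ z ∈ ball p R, DifferentiableAt ℂ g1 z ∧ g1 z ≠ 0 ∧ ‖g1 z‖ ≤ G * Real.exp (K0 * L)) →
      (∀ z ∈ ball p R, DifferentiableAt ℂ g2 z ∧ g2 z ≠ 0 ∧ ‖g2 z‖ ≤ G * Real.exp (K0 * L)) →
      G * Real.exp (-(K0 * L)) ≤ ‖g1 p‖ → G * Real.exp (-(K0 * L)) ≤ ‖g2 p‖ →
      (∀ z ∈ ball p (1 / 2), ‖g1 z - g2 z‖ ≤ Real.exp (-(c0 * L)) * ‖g2 z‖) →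
      ∀ z ∈ closedBall p ρ, ‖g1 z - g2 z‖ ≤ ε * ‖g2 z‖ := by
  obtain ⟨R1, hR1⟩ : ∃ R1 : ℝ, R1 = (ρ + R) / 2 := ⟨_, rfl⟩
  have hρR1 : ρ < R1 := by rw [hR1]; linarith
  have hR1R : R1 < R := by rw [hR1]; linarith
  obtain ⟨θ, hθ0, hθ1, h3c⟩ := Pool.Agent.H296R2.LE.three_circles (r := 1 / 4) (ρ := ρ) (R := R1)
    (by norm_num) (by linarith) hρR1
  obtain ⟨C, hC⟩ : ∃ C : ℝ, C = 2 * (2 * (2 * K0) * R1 / (R - R1)) + 3 := ⟨_, rfl⟩
  have hq0 : 0 < 2 * (2 * K0) * R1 / (R - R1) := by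
    have : 0 < R1 := by linarith
    have : 0 < R - R1 := by linarith
    positivity
  have hC1 : 1 ≤ C := by rw [hC]; linarith
  obtain ⟨L0, hL01, hL0⟩ := small_seq C c0 θ (min (ε / 2) 1) hC1 hc0 hθ0 hθ1
    (lt_min (by positivity) one_pos)
  refine ⟨L0, hL01, ?_⟩
  intro L G g1 g2 p hL hG h1 h2 hp1 hp2 hcl
  obtain ⟨hκ2, hsm⟩ := hL0 L hL
  have hL1 : 1 ≤ L := hL01.trans hL
  obtain ⟨κ, hκ⟩ : ∃ κ : ℝ, κ = Real.exp (-(c0 * L)) := ⟨_, rfl⟩
  rw [← hκ] at hκ2 hsm hcl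
  have hκ0 : 0 < κ := by rw [hκ]; exact Real.exp_pos _
  have hM : 0 < 2 * K0 * L := by positivity
  have hB : ∀ g : ℂ → ℂ, G * Real.exp (-(K0 * L)) ≤ ‖g p‖ →
      G * Real.exp (K0 * L) ≤ Real.exp (2 * K0 * L) * ‖g p‖ := by
    intro g hg
    calc G * Real.exp (K0 * L) = Real.exp (2 * K0 * L) * (G * Real.exp (-(K0 * L))) := by
          rw [mul_left_comm, ← Real.exp_add]
          congr 2
          ring
      _ ≤ _ := mul_le_mul_of_nonneg_left hg (Real.exp_pos _).le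
  obtain ⟨f1, hf1, hf10, hf1e, hf1b⟩ := log_bd (by linarith : 0 < R1) hR1R hM h1 (hB g1 hp1)
  obtain ⟨f2, hf2, hf20, hf2e, hf2b⟩ := log_bd (by linarith : 0 < R1) hR1R hM h2 (hB g2 hp2)
  have hR0 : 0 < R := by linarith
  have hg1p : g1 p ≠ 0 := (h1 p (mem_ball_self hR0)).2.1
  have hg2p : g2 p ≠ 0 := (h2 p (mem_ball_self hR0)).2.1
  -- the constant
  obtain ⟨ℓ0, hℓ0⟩ : ∃ ℓ0 : ℂ, ℓ0 = Complex.log (g1 p / g2 p) := ⟨_, rfl⟩
  have hq1 : ‖g1 p / g2 p - 1‖ ≤ κ := by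
    have h3 : g1 p / g2 p - 1 = (g1 p - g2 p) / g2 p := by field_simp
    rw [h3, norm_div, div_le_iff₀ (norm_pos_iff.2 hg2p)]
    exact hcl p (mem_ball_self (by norm_num))
  have hℓb : ‖ℓ0‖ ≤ 2 * κ := by
    have h3 := Complex.norm_log_one_add_half_le_self (hq1.trans hκ2)
    rw [add_sub_cancel, ← hℓ0] at h3
    linarith
  have hℓe : cexp ℓ0 = g1 p / g2 p := by
    rw [hℓ0, Complex.exp_log (div_ne_zero hg1p hg2p)]
  obtain ⟨h, hh⟩ : ∃ h : ℂ → ℂ, h = fun z => f1 z - f2 z + ℓ0 := ⟨_, rfl⟩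
  have hhd : DifferentiableOn ℂ h (ball 0 R) := by
    rw [hh]
    exact (hf1.sub hf2).add_const _
  have hhe : ∀ z ∈ ball (0 : ℂ) R, cexp (h z) * g2 (p + z) = g1 (p + z) := by
    intro z hz
    rw [hh, hf1e z hz, hf2e z hz]
    simp only
    rw [Complex.exp_add, Complex.exp_sub, hℓe]
    have := Complex.exp_ne_zero (f2 z)
    field_simp
  have hmem : ∀ {z : ℂ} {r : ℝ}, ‖z‖ < r → p + z ∈ ball p r := by
    intro z r hz
    rwa [mem_ball_iff_norm, add_sub_cancel_left]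
  have hclose : ∀ z : ℂ, ‖z‖ < 1 / 2 → ‖cexp (h z) - 1‖ ≤ κ := by
    intro z hz
    have hz2 : z ∈ ball (0 : ℂ) R := by rw [mem_ball_zero_iff]; linarith
    have h3 := hcl _ (hmem hz)
    have h4 : g2 (p + z) ≠ 0 := (h2 _ (hmem (by linarith))).2.1
    rw [← hhe z hz2] at h3
    have h5 : cexp (h z) * g2 (p + z) - g2 (p + z) = (cexp (h z) - 1) * g2 (p + z) := by ring
    rw [h5, norm_mul] at h3
    exact le_of_mul_le_mul_right h3 (norm_pos_iff.2 h4)
  -- the derivative of `h` near the centre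
  have hder : ∀ z : ℂ, ‖z‖ ≤ 1 / 4 → ‖deriv h z‖ ≤ 16 * κ := by
    intro z hz
    have hzR : z ∈ ball (0 : ℂ) R := by rw [mem_ball_zero_iff]; linarith
    have hda : HasDerivAt h (deriv h z) z := (hhd.differentiableAt (isOpen_ball.mem_nhds hzR)).hasDerivAt
    have hq : HasDerivAt (fun w => cexp (h w) - 1) (cexp (h z) * deriv h z) z := (hda.cexp).sub_const 1
    have hsub : closedBall z (1 / 8) ⊆ ball (0 : ℂ) R := by
      intro w hw
      rw [mem_closedBall_iff_norm] at hw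
      rw [mem_ball_zero_iff]
      have := norm_sub_norm_le w z
      linarith
    have h3 : ‖deriv (fun w => cexp (h w) - 1) z‖ ≤ κ / (1 / 8) := by
      apply norm_deriv_le_of_forall_mem_sphere_norm_le (by norm_num)
      · apply DifferentiableOn.diffContOnCl
        rw [closure_ball _ (by norm_num)]
        intro w hw
        exact (((hhd.differentiableAt (isOpen_ball.mem_nhds (hsub hw))).cexp).sub_const
          1).differentiableWithinAt
      · intro w hw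
        apply hclose
        rw [mem_sphere_iff_norm] at hw
        have := norm_sub_norm_le w z
        linarith
    rw [hq.deriv, norm_mul] at h3
    have h4 := hclose z (by linarith)
    have h5 : 1 / 2 ≤ ‖cexp (h z)‖ := by
      have h6 : ‖(1 : ℂ)‖ - ‖1 - cexp (h z)‖ ≤ ‖cexp (h z)‖ := by
        have := norm_sub_norm_le (1 : ℂ) (1 - cexp (h z))
        simpa using this
      rw [norm_one, norm_sub_rev] at h6
      linarith
    have h7 := norm_nonneg (deriv h z)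
    nlinarith
  have hh0 : h 0 = ℓ0 := by rw [hh]; simp [hf10, hf20]
  have hsmall : ∀ z ∈ closedBall (0 : ℂ) (1 / 4), ‖h z‖ ≤ 6 * κ := by
    intro z hz
    have h3 := (convex_closedBall (0 : ℂ) (1 / 4)).norm_image_sub_le_of_norm_deriv_le (𝕜 := ℂ) (f := h)
      (C := 16 * κ) (x := 0) (y := z) (fun w hw => ?_) (fun w hw => hder w (by simpa using hw))
      (mem_closedBall_self (by norm_num)) hz
    · rw [hh0, sub_zero] at h3
      have h4 : ‖h z‖ ≤ ‖h z - ℓ0‖ + ‖ℓ0‖ := by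
        have := norm_add_le (h z - ℓ0) ℓ0
        simpa using this
      rw [mem_closedBall_zero_iff] at hz
      nlinarith
    · apply hhd.differentiableAt (isOpen_ball.mem_nhds _)
      rw [mem_ball_zero_iff]
      rw [mem_closedBall_zero_iff] at hw
      linarith
  have hbig : ∀ z ∈ ball (0 : ℂ) R1, ‖h z‖ ≤ C * L := by
    intro z hz
    have h3 := hf1b z hz
    have h4 := hf2b z hz
    have h5 : ‖h z‖ ≤ ‖f1 z‖ + ‖f2 z‖ + ‖ℓ0‖ := by
      rw [hh]
      exact (norm_add_le _ _).trans (add_le_add_left (norm_sub_le _ _) _)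
    have h6 : 2 * (2 * K0 * L) * R1 / (R - R1) = 2 * (2 * K0) * R1 / (R - R1) * L := by ring
    rw [h6] at h3 h4
    rw [hC]
    nlinarith
  have hfin : ∀ z ∈ closedBall (0 : ℂ) ρ, ‖h z‖ ≤ min (ε / 2) 1 := by
    intro z hz
    have h3 := h3c h 0 (6 * κ) (C * L) (by positivity) ?_ (hhd.mono (ball_subset_ball hR1R.le)) hsmall hbig z hz
    · exact h3.trans hsm
    · have h4 : 3 ≤ C * L := by
        have : 3 ≤ C := by rw [hC]; linarith
        nlinarith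
      linarith
  intro z hz
  have hzρ : ‖z - p‖ ≤ ρ := by rwa [mem_closedBall_iff_norm] at hz
  have h3 := hfin (z - p) (by rwa [mem_closedBall_zero_iff])
  have h4 := hhe (z - p) (by rw [mem_ball_zero_iff]; linarith)
  rw [add_sub_cancel] at h4
  have h5 : g1 z - g2 z = (cexp (h (z - p)) - 1) * g2 z := by rw [← h4]; ring
  rw [h5, norm_mul]
  apply mul_le_mul_of_nonneg_right _ (norm_nonneg _)
  refine (Complex.norm_exp_sub_one_le (h3.trans (min_le_right _ _))).trans ?_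
  have := h3.trans (min_le_left _ _)
  linarith

end Pool.Agent.Q27.ZS
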